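import Pool.Agent.Lib.MP_dc06b6_nt.Cross

/-!
# Averaging the dual sums over the generating vector
-/

set_option autoImplicit false
set_option linter.unusedSectionVars false

namespace Pool.Agent.Lib.MP_dc06b6_nt

open Finset

section sums

variable {N : ℕ} [NeZero N]

lemma sum_natAbs_le (F : ℕ → ℝ) (hF : ∀ k, 0 ≤ F k) :
    ∑ m : ZMod N, F m.valMinAbs.natAbs ≤ 2 * ∑ k ∈ range (N + 1), F k := by
  have h1 : ∀ m ∈ (Finset.univ : Finset (ZMod N)), m.valMinAbs.natAbs ∈ range (N + 1) := by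
    intro m _
    rw [Finset.mem_range]
    have := ZMod.natAbs_valMinAbs_le m
    omega
  rw [← Finset.sum_fiberwise_of_maps_to h1, Finset.mul_sum]
  refine Finset.sum_le_sum fun k _ => ?_
  have h2 : ∑ m : ZMod N with m.valMinAbs.natAbs = k, F m.valMinAbs.natAbs =
      ∑ m : ZMod N with m.valMinAbs.natAbs = k, F k := by
    refine Finset.sum_congr rfl fun m hm => ?_
    rw [Finset.mem_filter] at hm
    rw [hm.2]
  rw [h2, Finset.sum_const, nsmul_eq_mul]
  refine mul_le_mul_of_nonneg_right ?_ (hF k)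
  have h3 : #{m : ZMod N | m.valMinAbs.natAbs = k} ≤ #({(k : ℤ), -(k : ℤ)} : Finset ℤ) := by
    refine Finset.card_le_card_of_injOn (fun m => m.valMinAbs) ?_ ?_
    · intro m hm
      simp only [Finset.coe_filter, Finset.mem_univ, true_and] at hm
      have hm' : m.valMinAbs.natAbs = k := hm
      simp only [Finset.coe_insert, Finset.coe_singleton]
      have := Int.natAbs_eq m.valMinAbs
      rw [hm'] at this
      simpa using this
    · intro a _ b _ h
      exact ZMod.injective_valMinAbs h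
  have h4 : #({(k : ℤ), -(k : ℤ)} : Finset ℤ) ≤ 2 := Finset.card_le_two
  exact_mod_cast h3.trans h4

lemma mu_eq (m : ZMod N) : mu m = max 1 ((m.valMinAbs.natAbs : ℕ) : ℝ) := by
  unfold mu
  rw [Nat.cast_natAbs, Int.cast_abs]

lemma sum_min_le (a : ℕ) (ha : 1 ≤ a) (M : ℕ) :
    ∑ k ∈ range M, min 1 ((a : ℝ) ^ 2 / (max 1 (k : ℝ)) ^ 2) ≤ 3 * a := by
  have ha' : (1 : ℝ) ≤ a := by exact_mod_cast ha
  have key : ∀ n : ℕ, ∑ k ∈ range (a + 1 + n), min 1 ((a : ℝ) ^ 2 / (max 1 (k : ℝ)) ^ 2) ≤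
      2 * a + 1 - (a : ℝ) ^ 2 / (a + n) := by
    intro n
    induction n with
    | zero =>
      have h1 : ∑ k ∈ range (a + 1 + 0), min 1 ((a : ℝ) ^ 2 / (max 1 (k : ℝ)) ^ 2) ≤
          ∑ k ∈ range (a + 1 + 0), (1 : ℝ) := Finset.sum_le_sum fun k _ => min_le_left _ _
      refine h1.trans ?_
      rw [Finset.sum_const, Finset.card_range, nsmul_eq_mul, mul_one]
      push_cast
      have ha0 : (a : ℝ) ≠ 0 := by positivity
      have e : (a : ℝ) ^ 2 / (a + 0) = a := by
        rw [add_zero, sq, mul_div_assoc, div_self ha0, mul_one]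
      rw [e]
      linarith
    | succ n ih =>
      rw [← add_assoc, Finset.sum_range_succ]
      have h2 : min 1 ((a : ℝ) ^ 2 / (max 1 ((a + 1 + n : ℕ) : ℝ)) ^ 2) ≤
          (a : ℝ) ^ 2 / (a + n) - (a : ℝ) ^ 2 / (a + (n + 1 : ℕ)) := by
        refine (min_le_right _ _).trans ?_
        have h3 : max 1 ((a + 1 + n : ℕ) : ℝ) = a + 1 + n := by
          push_cast
          apply max_eq_right
          have : (0 : ℝ) ≤ n := Nat.cast_nonneg n
          linarith
        rw [h3]
        push_cast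
        have hn : (0 : ℝ) ≤ n := Nat.cast_nonneg n
        rw [div_sub_div _ _ (by positivity) (by positivity), div_le_div_iff₀ (by positivity)
          (by positivity)]
        have : (a : ℝ) ^ 2 * (a + (n + 1)) - (a + n) * (a : ℝ) ^ 2 = (a : ℝ) ^ 2 := by ring
        rw [this]
        have h5 : 0 ≤ (a : ℝ) ^ 2 := by positivity
        apply mul_le_mul_of_nonneg_left _ h5
        nlinarith
      linarith
  have h1 : ∑ k ∈ range M, min 1 ((a : ℝ) ^ 2 / (max 1 (k : ℝ)) ^ 2) ≤
      ∑ k ∈ range (a + 1 + M), min 1 ((a : ℝ) ^ 2 / (max 1 (k : ℝ)) ^ 2) :=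
    Finset.sum_le_sum_of_subset_of_nonneg (Finset.range_mono (by omega))
      fun k _ _ => le_min zero_le_one (by positivity)
  have h2 := key M
  have h3 : 0 ≤ (a : ℝ) ^ 2 / (a + M) := by positivity
  linarith

lemma sum_V_le (c : ℕ) : ∑ m : ZMod N, V c m ≤ 6 * 2 ^ c := by
  have h1 := sum_natAbs_le (N := N) (fun k => min 1 (((2 ^ c : ℕ) : ℝ) ^ 2 / (max 1 (k : ℝ)) ^ 2))
    fun k => le_min zero_le_one (by positivity)
  have h2 := sum_min_le (2 ^ c) Nat.one_le_two_pow (N + 1)
  have h3 : ∀ m : ZMod N, V c m =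
      min 1 (((2 ^ c : ℕ) : ℝ) ^ 2 / (max 1 ((m.valMinAbs.natAbs : ℕ) : ℝ)) ^ 2) := by
    intro m
    unfold V
    rw [mu_eq]
    congr 2
    push_cast
    rw [← pow_mul, mul_comm, pow_mul]
    norm_num
  simp only [h3]
  push_cast at h1 h2 ⊢
  linarith

/-- The harmonic-type bound used throughout. -/
noncomputable def Lam (N : ℕ) : ℝ := 2 * (2 + Real.log N)

lemma Lam_pos (N : ℕ) : 0 < Lam N := by
  unfold Lam
  have : 0 ≤ Real.log N := Real.log_natCast_nonneg N
  linarith

lemma sum_inv_mu_le : ∑ m : ZMod N, 1 / mu m ≤ Lam N := by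
  have h1 := sum_natAbs_le (N := N) (fun k => 1 / (max 1 (k : ℝ))) fun k => by positivity
  simp only [mu_eq]
  refine h1.trans ?_
  unfold Lam
  have h2 : ∑ k ∈ range (N + 1), 1 / (max 1 (k : ℝ)) ≤ 2 + Real.log N := by
    rw [Finset.sum_range_succ']
    have h3 : ∑ k ∈ range N, 1 / (max 1 ((k + 1 : ℕ) : ℝ)) = ((harmonic N : ℚ) : ℝ) := by
      unfold harmonic
      push_cast
      refine Finset.sum_congr rfl fun k _ => ?_
      rw [one_div]
      congr 1
      apply max_eq_right
      have : (0 : ℝ) ≤ k := Nat.cast_nonneg k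
      linarith
    rw [h3]
    have h4 := harmonic_le_one_add_log N
    simp only [Nat.cast_zero, zero_le_one, sup_of_le_left, div_one]
    linarith
  linarith

lemma sum_mu_V_le (c : ℕ) : ∑ m : ZMod N, mu m * V c m ≤ 4 ^ c * Lam N := by
  refine le_trans ?_ (mul_le_mul_of_nonneg_left (sum_inv_mu_le (N := N)) (by positivity))
  rw [Finset.mul_sum]
  refine Finset.sum_le_sum fun m _ => ?_
  have hm := mu_pos m
  calc mu m * V c m ≤ mu m * (4 ^ c / mu m ^ 2) :=
        mul_le_mul_of_nonneg_left (min_le_right _ _) hm.le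
    _ = 4 ^ c * (1 / mu m) := by field_simp

end sums

section count

variable {N : ℕ} [Fact N.Prime] {t : ℕ}

/-- The generator of the lattice attached to the multiplier `B` and the vector `g`. -/
def gen (B : ZMod N) (g : Fin t → ZMod N) : Fin (t + 1) → ZMod N := Fin.cons 1 fun i => B * g i

lemma card_sol (B : ZMod N) (hB : B ≠ 0) (m : Fin (t + 1) → ZMod N) (hm : m ≠ 0) :
    #{g : Fin t → ZMod N | ∑ i, m i * gen B g i = 0} * N ≤ N ^ t := by
  classical
  have hform : ∀ g : Fin t → ZMod N, ∑ i, m i * gen B g i = m 0 + ∑ i : Fin t, m i.succ * (B * g i) := by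
    intro g
    rw [Fin.sum_univ_succ]
    simp [gen]
  simp only [hform]
  by_cases h : ∃ i : Fin t, m i.succ ≠ 0
  · obtain ⟨i, hi⟩ := h
    have hinj : Function.Injective
        (fun p : {g : Fin t → ZMod N // m 0 + ∑ i : Fin t, m i.succ * (B * g i) = 0} × ZMod N =>
          (fun j => p.1.1 j + (if j = i then p.2 else 0) : Fin t → ZMod N)) := by
      rintro ⟨⟨g, hg⟩, x⟩ ⟨⟨g', hg'⟩, x'⟩ hp
      simp only at hp
      have hlin : ∀ (g : Fin t → ZMod N) (x : ZMod N),
          m 0 + ∑ j : Fin t, m j.succ * (B * (g j + if j = i then x else 0)) =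
          (m 0 + ∑ j : Fin t, m j.succ * (B * g j)) + m i.succ * B * x := by
        intro g x
        rw [add_assoc]
        congr 1
        have : ∀ j : Fin t, m j.succ * (B * (g j + if j = i then x else 0)) =
            m j.succ * (B * g j) + if j = i then m i.succ * B * x else 0 := by
          intro j
          split_ifs with hj
          · subst hj; ring
          · ring
        simp only [this, Finset.sum_add_distrib, Finset.sum_ite_eq', Finset.mem_univ, if_true]
      have h1 := hlin g x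
      have h2 := hlin g' x'
      have h3 : ∀ j, g j + (if j = i then x else 0) = g' j + (if j = i then x' else 0) :=
        fun j => congrFun hp j
      simp only [h3] at h1
      rw [h2, hg, hg', zero_add, zero_add] at h1
      have hx : x' = x := mul_left_cancel₀ (mul_ne_zero hi hB) h1
      subst hx
      have hgg : g = g' := by
        funext j
        exact add_right_cancel (h3 j)
      subst hgg
      rfl
    have hcard := Fintype.card_le_of_injective _ hinj
    rw [Fintype.card_prod, ZMod.card, Fintype.card_fun, ZMod.card, Fintype.card_fin,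
      Fintype.card_subtype] at hcard
    exact hcard
  · push Not at h
    have h0 : m 0 ≠ 0 := by
      intro h0
      apply hm
      funext i
      refine Fin.cases h0 (fun j => h j) i
    have : #{g : Fin t → ZMod N | m 0 + ∑ i : Fin t, m i.succ * (B * g i) = 0} = 0 := by
      rw [Finset.card_eq_zero, Finset.filter_eq_empty_iff]
      intro g _
      simp [h, h0]
    rw [this, zero_mul]
    positivity

/-- `∏ max(1,|m_i|)`. -/
noncomputable def qq {d : ℕ} (m : Fin d → ZMod N) : ℝ := ∏ i, mu (m i)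

lemma qq_pos {d : ℕ} (m : Fin d → ZMod N) : 0 < qq m := Finset.prod_pos fun _ _ => mu_pos _

/-- `g` is bad for the multiplier `B` if the dual lattice has a too small vector. -/
def Bad (Q : ℝ) (B : ZMod N) (g : Fin t → ZMod N) : Prop :=
  ∃ m : Fin (t + 1) → ZMod N, m ≠ 0 ∧ ∑ i, m i * gen B g i = 0 ∧ qq m < Q

open Classical in
lemma card_bad (Q : ℝ) (hQ : 0 ≤ Q) (B : ZMod N) (hB : B ≠ 0) :
    (#{g : Fin t → ZMod N | Bad Q B g} : ℝ) * N ≤ N ^ t * (Q * Lam N ^ (t + 1)) := by
  have h1 : (Finset.univ.filter fun g : Fin t → ZMod N => Bad Q B g) ⊆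
      (Finset.univ.filter fun m : Fin (t + 1) → ZMod N => m ≠ 0 ∧ qq m < Q).biUnion
        fun m => Finset.univ.filter fun g : Fin t → ZMod N => ∑ i, m i * gen B g i = 0 := by
    intro g hg
    rw [Finset.mem_filter] at hg
    obtain ⟨-, m, hm, hs, hq⟩ := hg
    rw [Finset.mem_biUnion]
    exact ⟨m, by simp [hm, hq], by simp [hs]⟩
  have h2 : (#{g : Fin t → ZMod N | Bad Q B g} : ℝ) ≤
      ∑ m : Fin (t + 1) → ZMod N with (m ≠ 0 ∧ qq m < Q),
        (#{g : Fin t → ZMod N | ∑ i, m i * gen B g i = 0} : ℝ) := by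
    exact_mod_cast (Finset.card_le_card h1).trans Finset.card_biUnion_le
  calc (#{g : Fin t → ZMod N | Bad Q B g} : ℝ) * N
      ≤ (∑ m : Fin (t + 1) → ZMod N with (m ≠ 0 ∧ qq m < Q),
        (#{g : Fin t → ZMod N | ∑ i, m i * gen B g i = 0} : ℝ)) * N :=
          mul_le_mul_of_nonneg_right h2 (Nat.cast_nonneg _)
    _ = ∑ m : Fin (t + 1) → ZMod N with (m ≠ 0 ∧ qq m < Q),
        (#{g : Fin t → ZMod N | ∑ i, m i * gen B g i = 0} : ℝ) * N := by rw [Finset.sum_mul]
    _ ≤ ∑ m : Fin (t + 1) → ZMod N with (m ≠ 0 ∧ qq m < Q), (N : ℝ) ^ t * (Q / qq m) := by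
        refine Finset.sum_le_sum fun m hm => ?_
        rw [Finset.mem_filter] at hm
        have e1 : (#{g : Fin t → ZMod N | ∑ i, m i * gen B g i = 0} : ℝ) * N ≤ N ^ t := by
          exact_mod_cast card_sol B hB m hm.2.1
        have e2 : 1 ≤ Q / qq m := by
          rw [le_div_iff₀ (qq_pos m), one_mul]
          exact hm.2.2.le
        have e3 : (0 : ℝ) ≤ (N : ℝ) ^ t := by positivity
        nlinarith
    _ ≤ ∑ m : Fin (t + 1) → ZMod N, (N : ℝ) ^ t * (Q / qq m) := by
        refine Finset.sum_le_sum_of_subset_of_nonneg (Finset.filter_subset _ _) fun m _ _ => ?_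
        have := qq_pos m
        positivity
    _ = N ^ t * (Q * (∑ x : ZMod N, 1 / mu x) ^ (t + 1)) := by
        have e : (∑ x : ZMod N, 1 / mu x) ^ (t + 1) = ∑ m : Fin (t + 1) → ZMod N, 1 / qq m := by
          have : (∑ x : ZMod N, 1 / mu x) ^ (t + 1) = ∏ i : Fin (t + 1), ∑ x : ZMod N, 1 / mu x := by
            rw [Finset.prod_const, Finset.card_univ, Fintype.card_fin]
          rw [this, Finset.prod_univ_sum, Fintype.piFinset_univ]
          refine Finset.sum_congr rfl fun m _ => ?_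
          unfold qq
          rw [Finset.prod_div_distrib, Finset.prod_const_one]
        rw [e, Finset.mul_sum, Finset.mul_sum]
        refine Finset.sum_congr rfl fun m _ => ?_
        ring
    _ ≤ N ^ t * (Q * Lam N ^ (t + 1)) := by
        have e0 : 0 ≤ ∑ x : ZMod N, 1 / mu x := Finset.sum_nonneg fun x _ => by
          have := mu_pos x
          positivity
        have := sum_inv_mu_le (N := N)
        gcongr

/-- The truncated dual mass of the shape `c`. -/
lemma shape_bound (Q : ℝ) (hQ : 0 < Q) {d : ℕ} (c : Fin d → ℕ) :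
    (∏ i, (1 / 2 ^ c i : ℝ)) * ∑ m : Fin d → ZMod N with Q ≤ qq m, ∏ i, V (c i) (m i) ≤
      min (6 ^ d) (2 ^ (∑ i, c i) * Lam N ^ d / Q) := by
  have hP : ∏ i, (1 / 2 ^ c i : ℝ) = 1 / 2 ^ (∑ i, c i) := by
    rw [← Finset.prod_pow_eq_pow_sum, Finset.prod_div_distrib, Finset.prod_const_one]
  have hV0 : ∀ m : Fin d → ZMod N, 0 ≤ ∏ i, V (c i) (m i) := fun m =>
    Finset.prod_nonneg fun i _ => V_nonneg _ _
  rw [hP]
  apply le_min
  · have h1 : ∑ m : Fin d → ZMod N with Q ≤ qq m, ∏ i, V (c i) (m i) ≤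
        6 ^ d * 2 ^ (∑ i, c i) := by
      calc ∑ m : Fin d → ZMod N with Q ≤ qq m, ∏ i, V (c i) (m i)
          ≤ ∑ m : Fin d → ZMod N, ∏ i, V (c i) (m i) :=
            Finset.sum_le_sum_of_subset_of_nonneg (Finset.filter_subset _ _)
              fun m _ _ => hV0 m
        _ = ∏ i, ∑ x : ZMod N, V (c i) x := by
            rw [Finset.prod_univ_sum, Fintype.piFinset_univ]
        _ ≤ ∏ i, (6 * 2 ^ c i : ℝ) := by
            refine Finset.prod_le_prod (fun i _ => Finset.sum_nonneg fun x _ => V_nonneg _ _)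
              fun i _ => sum_V_le _
        _ = 6 ^ d * 2 ^ (∑ i, c i) := by
            rw [Finset.prod_mul_distrib, Finset.prod_const, Finset.card_univ, Fintype.card_fin,
              Finset.prod_pow_eq_pow_sum]
    rw [one_div_mul_eq_div, div_le_iff₀ (by positivity)]
    exact h1
  · have h1 : ∑ m : Fin d → ZMod N with Q ≤ qq m, ∏ i, V (c i) (m i) ≤
        4 ^ (∑ i, c i) * Lam N ^ d / Q := by
      calc ∑ m : Fin d → ZMod N with Q ≤ qq m, ∏ i, V (c i) (m i)
          ≤ ∑ m : Fin d → ZMod N with Q ≤ qq m, (1 / Q) * ∏ i, (mu (m i) * V (c i) (m i)) := by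
            refine Finset.sum_le_sum fun m hm => ?_
            rw [Finset.mem_filter] at hm
            rw [Finset.prod_mul_distrib]
            have e : 1 ≤ (1 / Q) * ∏ i, mu (m i) := by
              rw [one_div_mul_eq_div, le_div_iff₀ hQ, one_mul]
              exact hm.2
            have := hV0 m
            nlinarith
        _ ≤ ∑ m : Fin d → ZMod N, (1 / Q) * ∏ i, (mu (m i) * V (c i) (m i)) := by
            refine Finset.sum_le_sum_of_subset_of_nonneg (Finset.filter_subset _ _) fun m _ _ => ?_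
            refine mul_nonneg (by positivity) (Finset.prod_nonneg fun i _ =>
              mul_nonneg (mu_pos _).le (V_nonneg _ _))
        _ = (1 / Q) * ∏ i, ∑ x : ZMod N, (mu x * V (c i) x) := by
            rw [← Finset.mul_sum, Finset.prod_univ_sum, Fintype.piFinset_univ]
        _ ≤ (1 / Q) * ∏ i, (4 ^ c i * Lam N : ℝ) := by
            gcongr with i _
            · intro i _
              exact Finset.sum_nonneg fun x _ => mul_nonneg (mu_pos _).le (V_nonneg _ _)
            · exact sum_mu_V_le _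
        _ = 4 ^ (∑ i, c i) * Lam N ^ d / Q := by
            rw [Finset.prod_mul_distrib, Finset.prod_const, Finset.card_univ, Fintype.card_fin,
              Finset.prod_pow_eq_pow_sum]
            ring
    rw [one_div_mul_eq_div, div_le_iff₀ (by positivity)]
    refine h1.trans (le_of_eq ?_)
    have : (4 : ℝ) ^ (∑ i, c i) = 2 ^ (∑ i, c i) * 2 ^ (∑ i, c i) := by
      rw [← mul_pow]; norm_num
    rw [this]
    ring

open Classical in
/-- The average of the dual sum of shape `c` over the vectors that are not bad. -/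
lemma sum_dualSum_le (Q : ℝ) (hQ : 0 < Q) (B : ZMod N) (hB : B ≠ 0) (c : Fin (t + 1) → ℕ) :
    ∑ g : Fin t → ZMod N with ¬ Bad Q B g, dualSum (gen B g) c ≤
      N ^ t * min (6 ^ (t + 1)) (2 ^ (∑ i, c i) * Lam N ^ (t + 1) / Q) := by
  refine le_trans ?_ (mul_le_mul_of_nonneg_left (shape_bound (N := N) Q hQ c) (by positivity))
  have hN : (0 : ℝ) < N := Nat.cast_pos.mpr (Fact.out : N.Prime).pos
  have hV0 : ∀ m : Fin (t + 1) → ZMod N, 0 ≤ ∏ i, V (c i) (m i) := fun m =>
    Finset.prod_nonneg fun i _ => V_nonneg _ _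
  have hP0 : 0 ≤ ∏ i, (1 / 2 ^ c i : ℝ) := Finset.prod_nonneg fun i _ => by positivity
  unfold dualSum
  rw [← Finset.mul_sum]
  have h1 : ∑ g : Fin t → ZMod N with ¬ Bad Q B g,
      ∑ m : Fin (t + 1) → ZMod N with (∑ i, m i * gen B g i = 0 ∧ m ≠ 0), ∏ i, V (c i) (m i) ≤
      ∑ m : Fin (t + 1) → ZMod N with Q ≤ qq m, (N : ℝ) ^ t / N * ∏ i, V (c i) (m i) := by
    calc ∑ g : Fin t → ZMod N with ¬ Bad Q B g,
        ∑ m : Fin (t + 1) → ZMod N with (∑ i, m i * gen B g i = 0 ∧ m ≠ 0), ∏ i, V (c i) (m i)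
        ≤ ∑ g : Fin t → ZMod N, ∑ m : Fin (t + 1) → ZMod N with Q ≤ qq m,
          if (∑ i, m i * gen B g i = 0 ∧ m ≠ 0) then ∏ i, V (c i) (m i) else 0 := by
          rw [Finset.sum_filter]
          refine Finset.sum_le_sum fun g _ => ?_
          by_cases hg : Bad Q B g
          · rw [if_neg (not_not.mpr hg)]
            refine Finset.sum_nonneg fun m _ => ?_
            split_ifs
            · exact hV0 m
            · exact le_rfl
          · rw [if_pos hg, Finset.sum_filter, Finset.sum_filter]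
            refine Finset.sum_le_sum fun m _ => ?_
            split_ifs with h2 h3 h3
            · exact le_rfl
            · exfalso
              apply hg
              refine ⟨m, h2.2, h2.1, not_le.mp h3⟩
            · exact le_rfl
            · exact le_rfl
      _ = ∑ m : Fin (t + 1) → ZMod N with Q ≤ qq m, ∑ g : Fin t → ZMod N,
          if (∑ i, m i * gen B g i = 0 ∧ m ≠ 0) then ∏ i, V (c i) (m i) else 0 :=
          Finset.sum_comm
      _ ≤ _ := by
          refine Finset.sum_le_sum fun m _ => ?_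
          rw [← Finset.sum_filter, Finset.sum_const, nsmul_eq_mul]
          refine mul_le_mul_of_nonneg_right ?_ (hV0 m)
          rw [le_div_iff₀ hN]
          by_cases hm : m = 0
          · simp [hm]
          · have h5 := card_sol (t := t) B hB m hm
            have h6 : #{g : Fin t → ZMod N | (∑ i, m i * gen B g i = 0 ∧ m ≠ 0)} =
                #{g : Fin t → ZMod N | ∑ i, m i * gen B g i = 0} := by
              congr 1
              ext g
              simp [hm]
            rw [h6]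
            exact_mod_cast h5
  rw [← Finset.mul_sum] at h1
  calc (N : ℝ) * (∏ i, (1 / 2 ^ c i : ℝ)) * ∑ g : Fin t → ZMod N with ¬ Bad Q B g,
      ∑ m : Fin (t + 1) → ZMod N with (∑ i, m i * gen B g i = 0 ∧ m ≠ 0), ∏ i, V (c i) (m i)
      ≤ (N : ℝ) * (∏ i, (1 / 2 ^ c i : ℝ)) * ((N : ℝ) ^ t / N *
        ∑ m : Fin (t + 1) → ZMod N with Q ≤ qq m, ∏ i, V (c i) (m i)) := by gcongr
    _ = _ := by
      field_simp

lemma card_ce_le (d r : ℕ) : #(ce (d + 1) r) ≤ (r + 1) ^ d := by
  induction d generalizing r with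
  | zero =>
    rw [pow_zero, Finset.card_le_one]
    intro a ha b hb
    rw [mem_ce] at ha hb
    funext i
    have hi : i = 0 := by
      apply Fin.ext
      have := i.2
      simp only [Fin.val_zero]
      omega
    rw [hi]
    simp only [Fin.sum_univ_succ, Finset.univ_eq_empty, Finset.sum_empty, add_zero] at ha hb
    omega
  | succ d ih =>
    have h1 : (#(ce (d + 1 + 1) r) : ℝ) = ∑ a ∈ range (r + 1), (#(ce (d + 1) (r - a)) : ℝ) := by
      have := sum_ce_succ (d := d + 1) (S := r) (fun _ => (1 : ℝ))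
      simpa using this
    have h2 : (#(ce (d + 1 + 1) r) : ℝ) ≤ ((r : ℝ) + 1) ^ (d + 1) := by
      rw [h1]
      calc ∑ a ∈ range (r + 1), (#(ce (d + 1) (r - a)) : ℝ)
          ≤ ∑ a ∈ range (r + 1), ((r : ℝ) + 1) ^ d := by
            refine Finset.sum_le_sum fun a _ => ?_
            have h3 := ih (r - a)
            have h4 : (r - a + 1) ^ d ≤ (r + 1) ^ d := Nat.pow_le_pow_left (by omega) d
            exact_mod_cast h3.trans h4
        _ = ((r : ℝ) + 1) ^ (d + 1) := by
            rw [Finset.sum_const, Finset.card_range, nsmul_eq_mul, pow_succ]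
            push_cast
            ring
    exact_mod_cast h2

lemma sum_cs_eq (d L : ℕ) (f : ℕ → ℝ) :
    ∑ c ∈ cs d L, f (∑ i, c i) = ∑ r ∈ range (L + 1), #(ce d r) * f r := by
  have h1 : ∀ c ∈ cs d L, ∑ i, c i ∈ range (L + 1) := by
    intro c hc
    rw [mem_cs] at hc
    rw [Finset.mem_range]
    omega
  rw [← Finset.sum_fiberwise_of_maps_to h1]
  refine Finset.sum_congr rfl fun r hr => ?_
  have h2 : {c ∈ cs d L | ∑ i, c i = r} = ce d r := by
    ext c
    rw [Finset.mem_filter, mem_cs, mem_ce]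
    rw [Finset.mem_range] at hr
    constructor
    · exact fun h => h.2
    · exact fun h => ⟨by omega, h⟩
  rw [h2]
  have h3 : ∑ c ∈ ce d r, f (∑ i, c i) = ∑ c ∈ ce d r, f r := by
    refine Finset.sum_congr rfl fun c hc => ?_
    rw [mem_ce] at hc
    rw [hc]
  rw [h3, Finset.sum_const, nsmul_eq_mul]

lemma sum_min_geom (C : ℝ) (hC : 0 ≤ C) (M L : ℕ) :
    ∑ r ∈ range (L + 1), min C (2 ^ r * 2 ^ M / 2 ^ L) ≤ C * M + 2 := by
  rw [← Finset.sum_range_reflect]
  have h1 : ∀ j ∈ range (L + 1), min C (2 ^ (L + 1 - 1 - j) * 2 ^ M / 2 ^ L) =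
      min C ((2 : ℝ) ^ M / 2 ^ j) := by
    intro j hj
    rw [Finset.mem_range] at hj
    congr 1
    have : (2 : ℝ) ^ L = 2 ^ (L + 1 - 1 - j) * 2 ^ j := by
      rw [← pow_add]
      congr 1
      omega
    rw [this]
    field_simp
  rw [Finset.sum_congr rfl h1]
  have h2 : ∀ n, ∑ j ∈ range (M + n), min C ((2 : ℝ) ^ M / 2 ^ j) ≤ C * M + (2 - 2 / 2 ^ n) := by
    intro n
    induction n with
    | zero =>
      have : ∑ j ∈ range (M + 0), min C ((2 : ℝ) ^ M / 2 ^ j) ≤ ∑ j ∈ range (M + 0), C :=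
        Finset.sum_le_sum fun j _ => min_le_left _ _
      refine this.trans ?_
      rw [Finset.sum_const, Finset.card_range, nsmul_eq_mul]
      push_cast
      norm_num
      rw [mul_comm]
    | succ n ih =>
      rw [← add_assoc, Finset.sum_range_succ]
      have h3 : min C ((2 : ℝ) ^ M / 2 ^ (M + n)) ≤ 1 / 2 ^ n := by
        refine (min_le_right _ _).trans (le_of_eq ?_)
        rw [pow_add]
        field_simp
      have h4 : (2 : ℝ) / 2 ^ (n + 1) = 1 / 2 ^ n := by
        rw [pow_succ]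
        field_simp
      have h5 : (2 : ℝ) / 2 ^ n = 2 * (1 / 2 ^ n) := by ring
      rw [h4]
      linarith
  have h3 : ∑ j ∈ range (L + 1), min C ((2 : ℝ) ^ M / 2 ^ j) ≤
      ∑ j ∈ range (M + (L + 1)), min C ((2 : ℝ) ^ M / 2 ^ j) :=
    Finset.sum_le_sum_of_subset_of_nonneg (Finset.range_mono (by omega))
      fun j _ _ => le_min hC (by positivity)
  have h4 := h2 (L + 1)
  have h5 : (0 : ℝ) ≤ 2 / 2 ^ (L + 1) := by positivity
  linarith

/-- The sum of the truncated shape bounds over all shapes. -/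
lemma sum_shapes_le (L M : ℕ) (Q Λ : ℝ) (hΛ : Λ ^ (t + 1) / Q ≤ 2 ^ M / 2 ^ L) :
    ∑ c ∈ cs (t + 1) L, min (6 ^ (t + 1) : ℝ) (2 ^ (∑ i, c i) * Λ ^ (t + 1) / Q) ≤
      (L + 1) ^ t * (6 ^ (t + 1) * M + 2) := by
  rw [sum_cs_eq (t + 1) L fun r => min (6 ^ (t + 1) : ℝ) (2 ^ r * Λ ^ (t + 1) / Q)]
  have h1 : ∀ r, min (6 ^ (t + 1) : ℝ) (2 ^ r * Λ ^ (t + 1) / Q) ≤
      min (6 ^ (t + 1) : ℝ) (2 ^ r * 2 ^ M / 2 ^ L) := by
    intro r
    apply min_le_min le_rfl
    rw [mul_div_assoc, mul_div_assoc]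
    gcongr
  have h0 : ∀ r : ℕ, 0 ≤ min (6 ^ (t + 1) : ℝ) ((2 : ℝ) ^ r * 2 ^ M / 2 ^ L) := fun r =>
    le_min (by positivity) (by positivity)
  calc ∑ r ∈ range (L + 1), (#(ce (t + 1) r) : ℝ) *
        min (6 ^ (t + 1) : ℝ) (2 ^ r * Λ ^ (t + 1) / Q)
      ≤ ∑ r ∈ range (L + 1), ((L : ℝ) + 1) ^ t * min (6 ^ (t + 1) : ℝ) (2 ^ r * 2 ^ M / 2 ^ L) := by
        refine Finset.sum_le_sum fun r hr => ?_
        rw [Finset.mem_range] at hr
        have h2 : (#(ce (t + 1) r) : ℝ) ≤ ((L : ℝ) + 1) ^ t := by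
          have h3 := card_ce_le t r
          have h4 : (r + 1) ^ t ≤ (L + 1) ^ t := Nat.pow_le_pow_left (by omega) t
          exact_mod_cast h3.trans h4
        calc (#(ce (t + 1) r) : ℝ) * min (6 ^ (t + 1) : ℝ) (2 ^ r * Λ ^ (t + 1) / Q)
            ≤ (#(ce (t + 1) r) : ℝ) * min (6 ^ (t + 1) : ℝ) (2 ^ r * 2 ^ M / 2 ^ L) :=
              mul_le_mul_of_nonneg_left (h1 r) (Nat.cast_nonneg _)
          _ ≤ _ := mul_le_mul_of_nonneg_right h2 (h0 r)
    _ = ((L : ℝ) + 1) ^ t * ∑ r ∈ range (L + 1), min (6 ^ (t + 1) : ℝ) (2 ^ r * 2 ^ M / 2 ^ L) := by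
        rw [Finset.mul_sum]
    _ ≤ _ := by
        gcongr
        exact sum_min_geom _ (by positivity) M L

end count

end Pool.Agent.Lib.MP_dc06b6_nt
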