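import Pool.Agent.Lib.MP_dc06b6_nt.Fourier

/-!
# Decomposition of arcs of `ZMod N` into tent functions
-/

set_option autoImplicit false
set_option linter.unusedSectionVars false

namespace Pool.Agent.Lib.MP_dc06b6_nt

open Finset

variable {N : ℕ} [NeZero N]

/-- Indicator of an arc, with multiplicity. -/
noncomputable def arc (u : ZMod N) (w : ℕ) (x : ZMod N) : ℝ :=
  ∑ a ∈ range w, if x = u + (a : ZMod N) then 1 else 0

/-- Convolution of two arcs. -/
noncomputable def conv (u : ZMod N) (α w : ℕ) (x : ZMod N) : ℝ :=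
  ∑ a ∈ range α, ∑ b ∈ range w, if x = u + (a : ZMod N) + (b : ZMod N) then 1 else 0

lemma arc_nonneg (u : ZMod N) (w : ℕ) (x : ZMod N) : 0 ≤ arc u w x :=
  Finset.sum_nonneg fun _ _ => by split_ifs <;> norm_num

lemma conv_nonneg (u : ZMod N) (α w : ℕ) (x : ZMod N) : 0 ≤ conv u α w x :=
  Finset.sum_nonneg fun _ _ => Finset.sum_nonneg fun _ _ => by split_ifs <;> norm_num

lemma arc_le_one (u : ZMod N) (w : ℕ) (hw : w ≤ N) (x : ZMod N) : arc u w x ≤ 1 := by
  unfold arc
  rw [Finset.sum_boole]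
  have : (#{a ∈ range w | x = u + ((a : ℕ) : ZMod N)}) ≤ 1 := by
    rw [Finset.card_le_one]
    intro a ha b hb
    rw [Finset.mem_filter, Finset.mem_range] at ha hb
    have h1 : ((a : ℕ) : ZMod N) = ((b : ℕ) : ZMod N) := by
      have := ha.2.symm.trans hb.2
      exact add_left_cancel this
    rw [ZMod.natCast_eq_natCast_iff'] at h1
    rwa [Nat.mod_eq_of_lt (ha.1.trans_le hw), Nat.mod_eq_of_lt (hb.1.trans_le hw)] at h1
  exact_mod_cast this

lemma arc_mono (u : ZMod N) {w w' : ℕ} (h : w ≤ w') (x : ZMod N) : arc u w x ≤ arc u w' x :=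
  Finset.sum_le_sum_of_subset_of_nonneg (Finset.range_mono h)
    fun _ _ _ => by split_ifs <;> norm_num

lemma conv_add_left (u : ZMod N) (n k w : ℕ) (x : ZMod N) :
    conv u (n + k) w x = conv u n w x + conv (u + (n : ZMod N)) k w x := by
  unfold conv
  rw [Finset.sum_range_add]
  congr 1
  refine Finset.sum_congr rfl fun a _ => Finset.sum_congr rfl fun b _ => ?_
  congr 2
  push_cast
  ring

lemma conv_add_right (u : ZMod N) (n k w : ℕ) (x : ZMod N) :
    conv u n (k + w) x = conv u n k x + conv (u + (k : ZMod N)) n w x := by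
  unfold conv
  rw [← Finset.sum_add_distrib]
  refine Finset.sum_congr rfl fun a _ => ?_
  rw [Finset.sum_range_add]
  congr 1
  refine Finset.sum_congr rfl fun b _ => ?_
  congr 2
  push_cast
  ring

lemma conv_double (u : ZMod N) (n w : ℕ) (x : ZMod N) :
    2 * conv u (n + w) w x =
      conv u n (2 * w) x + conv u w w x + conv (u + (n : ZMod N)) w w x := by
  have h1 := conv_add_left u n w w x
  have h2 := conv_add_left u w n w x
  have h3 := conv_add_right u n w w x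
  rw [← two_mul] at h3
  rw [add_comm w n] at h2
  linarith

lemma conv_one (u : ZMod N) (ℓ : ℕ) (x : ZMod N) : conv u ℓ 1 x = arc u ℓ x := by
  simp only [conv, arc, Finset.sum_range_one, Nat.cast_zero, add_zero]

/-- Left and right tents. -/
noncomputable def tents (u : ZMod N) (ℓ i : ℕ) (x : ZMod N) : ℝ :=
  (1 / (2 * 2 ^ i)) * (conv u (2 ^ i) (2 ^ i) x +
    conv (u + ((ℓ + 1 - 2 ^ (i + 1) : ℕ) : ZMod N)) (2 ^ i) (2 ^ i) x)

/-- The telescoping decomposition of an arc. -/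
lemma arc_eq (u : ZMod N) (ℓ K : ℕ) (hK : 2 ^ K ≤ ℓ + 1) (x : ZMod N) :
    arc u ℓ x = (1 / 2 ^ K) * conv u (ℓ + 1 - 2 ^ K) (2 ^ K) x +
      ∑ i ∈ range K, tents u ℓ i x := by
  induction K with
  | zero => simp [conv_one]
  | succ K ih =>
    have hK' : 2 ^ K ≤ ℓ + 1 := le_trans (Nat.pow_le_pow_right (by norm_num) (by omega)) hK
    rw [ih hK', Finset.sum_range_succ]
    have h1 : ℓ + 1 - 2 ^ K = (ℓ + 1 - 2 ^ (K + 1)) + 2 ^ K := by
      rw [pow_succ] at hK ⊢
      omega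
    have h2 := conv_double u (ℓ + 1 - 2 ^ (K + 1)) (2 ^ K) x
    rw [← h1] at h2
    unfold tents
    have h3 : (2 : ℕ) * 2 ^ K = 2 ^ (K + 1) := by ring
    rw [h3] at h2
    have h4 : (1 / 2 ^ K : ℝ) * conv u (ℓ + 1 - 2 ^ K) (2 ^ K) x =
        (1 / 2 ^ (K + 1)) * (2 * conv u (ℓ + 1 - 2 ^ K) (2 ^ K) x) := by
      rw [pow_succ]
      field_simp
    rw [h4, h2, pow_succ]
    ring

lemma left_tents_le (u : ZMod N) (K : ℕ) (x : ZMod N) :
    ∑ i ∈ range K, (1 / (2 * 2 ^ i : ℝ)) * conv u (2 ^ i) (2 ^ i) x ≤ arc u (2 ^ K) x := by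
  have hpos : 0 < 2 ^ K := by positivity
  have h := arc_eq u (2 ^ K - 1) K (by omega) x
  refine le_trans ?_ (arc_mono u (Nat.sub_le (2 ^ K) 1) x)
  rw [h]
  have h1 : 0 ≤ (1 / 2 ^ K : ℝ) * conv u (2 ^ K - 1 + 1 - 2 ^ K) (2 ^ K) x :=
    mul_nonneg (by positivity) (conv_nonneg _ _ _ _)
  have h2 : ∑ i ∈ range K, (1 / (2 * 2 ^ i : ℝ)) * conv u (2 ^ i) (2 ^ i) x ≤
      ∑ i ∈ range K, tents u (2 ^ K - 1) i x := by
    refine Finset.sum_le_sum fun i _ => ?_
    unfold tents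
    rw [mul_add]
    have := mul_nonneg (by positivity : (0:ℝ) ≤ 1 / (2 * 2 ^ i))
      (conv_nonneg (u + ((2 ^ K - 1 + 1 - 2 ^ (i + 1) : ℕ) : ZMod N)) (2 ^ i) (2 ^ i) x)
    linarith
  linarith

lemma right_tents_le (u : ZMod N) (ℓ K : ℕ) (hK : 2 ^ K ≤ ℓ + 1) (x : ZMod N) :
    ∑ i ∈ range K, (1 / (2 * 2 ^ i : ℝ)) *
      conv (u + ((ℓ + 1 - 2 ^ (i + 1) : ℕ) : ZMod N)) (2 ^ i) (2 ^ i) x ≤
      arc (u + ((ℓ + 1 - 2 ^ K : ℕ) : ZMod N)) (2 ^ K) x := by
  have hpos : 0 < 2 ^ K := by positivity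
  set u' := u + ((ℓ + 1 - 2 ^ K : ℕ) : ZMod N) with hu'
  have h := arc_eq u' (2 ^ K - 1) K (by omega) x
  refine le_trans ?_ (arc_mono u' (Nat.sub_le (2 ^ K) 1) x)
  rw [h]
  have h1 : 0 ≤ (1 / 2 ^ K : ℝ) * conv u' (2 ^ K - 1 + 1 - 2 ^ K) (2 ^ K) x :=
    mul_nonneg (by positivity) (conv_nonneg _ _ _ _)
  have h2 : ∑ i ∈ range K, (1 / (2 * 2 ^ i : ℝ)) *
      conv (u + ((ℓ + 1 - 2 ^ (i + 1) : ℕ) : ZMod N)) (2 ^ i) (2 ^ i) x ≤
      ∑ i ∈ range K, tents u' (2 ^ K - 1) i x := by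
    refine Finset.sum_le_sum fun i hi => ?_
    rw [Finset.mem_range] at hi
    have hpow : 2 ^ (i + 1) ≤ 2 ^ K := Nat.pow_le_pow_right (by norm_num) (by omega)
    have h3 : u' + ((2 ^ K - 1 + 1 - 2 ^ (i + 1) : ℕ) : ZMod N) =
        u + ((ℓ + 1 - 2 ^ (i + 1) : ℕ) : ZMod N) := by
      rw [hu', add_assoc, ← Nat.cast_add]
      congr 2
      omega
    unfold tents
    rw [mul_add, h3]
    have := mul_nonneg (by positivity : (0:ℝ) ≤ 1 / (2 * 2 ^ i))
      (conv_nonneg u' (2 ^ i) (2 ^ i) x)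
    linarith
  linarith

lemma arc_le_conv (v : ZMod N) (w : ℕ) (hw : 0 < w) (x : ZMod N) :
    arc v w x ≤ (1 / w : ℝ) * conv (v - ((w - 1 : ℕ) : ZMod N)) (2 * w) w x := by
  have h1 : ∀ b ∈ range w, arc v w x ≤ ∑ a ∈ range (2 * w),
      if x = v - ((w - 1 : ℕ) : ZMod N) + (a : ZMod N) + (b : ZMod N) then (1 : ℝ) else 0 := by
    intro b hb
    rw [Finset.mem_range] at hb
    have h2 : arc v w x = ∑ a ∈ (range w).map (addRightEmbedding (w - 1 - b)),
        if x = v - ((w - 1 : ℕ) : ZMod N) + (a : ZMod N) + (b : ZMod N) then (1 : ℝ) else 0 := by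
      rw [Finset.sum_map]
      unfold arc
      refine Finset.sum_congr rfl fun y _ => ?_
      congr 2
      simp only [addRightEmbedding_apply]
      have h3 : v - ((w - 1 : ℕ) : ZMod N) + ((y + (w - 1 - b) : ℕ) : ZMod N) + (b : ZMod N) =
          v - ((w - 1 : ℕ) : ZMod N) + ((y + (w - 1 - b) + b : ℕ) : ZMod N) := by
        push_cast
        ring
      rw [h3, show y + (w - 1 - b) + b = y + (w - 1) by omega]
      push_cast
      ring
    rw [h2]
    refine Finset.sum_le_sum_of_subset_of_nonneg ?_ fun _ _ _ => by split_ifs <;> norm_num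
    intro a ha
    rw [Finset.mem_map] at ha
    obtain ⟨y, hy, rfl⟩ := ha
    rw [Finset.mem_range] at hy ⊢
    simp only [addRightEmbedding_apply]
    omega
  have h4 := Finset.sum_le_sum h1
  rw [Finset.sum_const, Finset.card_range, nsmul_eq_mul, Finset.sum_comm] at h4
  have hw' : (0 : ℝ) < w := Nat.cast_pos.mpr hw
  rw [one_div, ← div_eq_inv_mul, le_div_iff₀ hw', mul_comm]
  exact h4

lemma FT_conv (u : ZMod N) (α w : ℕ) (m : ZMod N) :
    FT (conv u α w) m = ZMod.stdAddChar (m * u) * geo α m * geo w m := by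
  have h1 : FT (conv u α w) m = ∑ a ∈ range α, ∑ b ∈ range w,
      (ZMod.stdAddChar (m * (u + (a : ZMod N) + (b : ZMod N))) : ℂ) := by
    unfold FT conv
    push_cast
    simp only [Finset.sum_mul]
    rw [Finset.sum_comm]
    refine Finset.sum_congr rfl fun a _ => ?_
    rw [Finset.sum_comm]
    refine Finset.sum_congr rfl fun b _ => ?_
    rw [Finset.sum_eq_single (u + (a : ZMod N) + (b : ZMod N))]
    · simp
    · intro x _ hx
      simp [hx]
    · intro h
      exact absurd (Finset.mem_univ _) h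
  rw [h1]
  unfold geo
  rw [mul_assoc, Finset.sum_mul, Finset.mul_sum]
  refine Finset.sum_congr rfl fun a _ => ?_
  rw [Finset.mul_sum, Finset.mul_sum]
  refine Finset.sum_congr rfl fun b _ => ?_
  rw [← AddChar.map_add_eq_mul, ← AddChar.map_add_eq_mul]
  congr 1
  ring

/-- `max(1,|m|)` for the absolutely least residue. -/
noncomputable def mu (m : ZMod N) : ℝ := max 1 |(m.valMinAbs : ℝ)|

lemma one_le_mu (m : ZMod N) : 1 ≤ mu m := le_max_left _ _

lemma mu_pos (m : ZMod N) : 0 < mu m := lt_of_lt_of_le one_pos (one_le_mu m)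

/-- The weight `min(1, 4^c/max(1,|m|)^2)`. -/
noncomputable def V (c : ℕ) (m : ZMod N) : ℝ := min 1 (4 ^ c / mu m ^ 2)

lemma V_nonneg (c : ℕ) (m : ZMod N) : 0 ≤ V c m :=
  le_min zero_le_one (div_nonneg (by positivity) (by positivity))

lemma V_zero (c : ℕ) : V c (0 : ZMod N) = 1 := by
  unfold V mu
  rw [ZMod.valMinAbs_zero]
  simp only [Int.cast_zero, abs_zero, zero_le_one, sup_of_le_left, one_pow, div_one,
    inf_eq_left]
  exact one_le_pow₀ (by norm_num)

/-- Bumps of scale `N / 2^c`. -/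
structure IsBump (c : ℕ) (K : ℝ) (f : ZMod N → ℝ) : Prop where
  nonneg : ∀ x, 0 ≤ f x
  ft : ∀ m, ‖FT f m‖ ≤ K * (N / 2 ^ c) * V c m

lemma FT_add (f g : ZMod N → ℝ) (m : ZMod N) : FT (fun x => f x + g x) m = FT f m + FT g m := by
  unfold FT
  rw [← Finset.sum_add_distrib]
  refine Finset.sum_congr rfl fun x _ => ?_
  push_cast
  ring

lemma FT_smul (r : ℝ) (f : ZMod N → ℝ) (m : ZMod N) : FT (fun x => r * f x) m = r * FT f m := by
  unfold FT
  rw [Finset.mul_sum]
  refine Finset.sum_congr rfl fun x _ => ?_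
  push_cast
  ring

lemma IsBump.add {c : ℕ} {K K' : ℝ} {f g : ZMod N → ℝ} (hf : IsBump c K f) (hg : IsBump c K' g) :
    IsBump c (K + K') (fun x => f x + g x) := by
  refine ⟨fun x => add_nonneg (hf.nonneg x) (hg.nonneg x), fun m => ?_⟩
  rw [FT_add]
  refine (norm_add_le _ _).trans ?_
  have := add_le_add (hf.ft m) (hg.ft m)
  refine this.trans (le_of_eq (by ring))

lemma IsBump.smul {c : ℕ} {K : ℝ} {f : ZMod N → ℝ} (hf : IsBump c K f) {r : ℝ} (hr : 0 ≤ r) :
    IsBump c (r * K) (fun x => r * f x) := by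
  refine ⟨fun x => mul_nonneg hr (hf.nonneg x), fun m => ?_⟩
  rw [FT_smul, norm_mul, Complex.norm_real, Real.norm_eq_abs, abs_of_nonneg hr]
  have := mul_le_mul_of_nonneg_left (hf.ft m) hr
  refine this.trans (le_of_eq (by ring))

lemma IsBump.mono {c : ℕ} {K K' : ℝ} {f : ZMod N → ℝ} (hf : IsBump c K f) (h : K ≤ K') :
    IsBump c K' f := by
  refine ⟨hf.nonneg, fun m => (hf.ft m).trans ?_⟩
  have := V_nonneg c m
  gcongr

lemma isBump_zero (c : ℕ) : IsBump c 0 (fun _ : ZMod N => 0) :=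
  ⟨fun _ => le_rfl, fun m => by simp [FT]⟩

lemma isBump_one : IsBump 0 1 (fun _ : ZMod N => 1) := by
  refine ⟨fun _ => zero_le_one, fun m => ?_⟩
  have h : FT (fun _ : ZMod N => (1 : ℝ)) m = if m = 0 then (N : ℂ) else 0 := by
    rw [← char_sum m]
    simp [FT]
  rw [h]
  split_ifs with h0
  · subst h0
    rw [V_zero]
    simp
  · rw [norm_zero]
    have := V_nonneg 0 m
    positivity

/-- Normalised convolutions are bumps. -/
lemma isBump_conv (c : ℕ) (hc : c ≤ Nat.log 2 N) (u : ZMod N) (α : ℕ)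
    (hα : α ≤ 2 * 2 ^ (Nat.log 2 N - c)) :
    IsBump c 2 (fun x => (1 / 2 ^ (Nat.log 2 N - c) : ℝ) *
      conv u α (2 ^ (Nat.log 2 N - c)) x) := by
  set L := Nat.log 2 N with hL
  have hN0 : N ≠ 0 := NeZero.ne N
  have hN : (0 : ℝ) < N := Nat.cast_pos.mpr (NeZero.pos N)
  have h1 : (2 : ℝ) ^ L ≤ N := by exact_mod_cast Nat.pow_log_le_self 2 hN0
  have h2 : (N : ℝ) < 2 ^ L * 2 := by
    have := Nat.lt_pow_succ_log_self (b := 2) (by norm_num) N
    rw [← hL, pow_succ] at this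
    exact_mod_cast this
  have hLc : (2 : ℝ) ^ L = 2 ^ (L - c) * 2 ^ c := by
    rw [← pow_add]
    congr 1
    omega
  set w : ℕ := 2 ^ (L - c) with hw
  have hwR : ((w : ℕ) : ℝ) = 2 ^ (L - c) := by rw [hw]; push_cast; rfl
  have hw0 : (0 : ℝ) < w := by rw [hwR]; positivity
  refine ⟨fun x => mul_nonneg (by positivity) (conv_nonneg _ _ _ _), fun m => ?_⟩
  rw [FT_smul, norm_mul, Complex.norm_real, Real.norm_eq_abs, abs_of_nonneg (by positivity),
    FT_conv, norm_mul, norm_mul, norm_char, one_mul]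
  rw [← hwR]
  have hA1 : ‖geo α m‖ ≤ 2 * w := (norm_geo_le α m).trans (by exact_mod_cast hα)
  have hB1 : ‖geo w m‖ ≤ w := norm_geo_le w m
  have hscale : (w : ℝ) ≤ N / 2 ^ c := by
    rw [le_div_iff₀ (by positivity), hwR, ← hLc]
    exact h1
  have hscale2 : (N : ℝ) / 2 ^ c < 2 * w := by
    rw [div_lt_iff₀ (by positivity), hwR]
    calc (N : ℝ) < 2 ^ L * 2 := h2
      _ = 2 * 2 ^ (L - c) * 2 ^ c := by rw [hLc]; ring
  have hb1 : 1 / (w : ℝ) * (‖geo α m‖ * ‖geo w m‖) ≤ 2 * (N / 2 ^ c) := by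
    calc 1 / (w : ℝ) * (‖geo α m‖ * ‖geo w m‖) ≤ 1 / (w : ℝ) * ((2 * w) * w) := by gcongr
      _ = 2 * w := by field_simp
      _ ≤ 2 * (N / 2 ^ c) := by linarith
  unfold V
  rcases le_total 1 ((4 : ℝ) ^ c / mu m ^ 2) with h | h
  · rw [min_eq_left h, mul_one]
    exact hb1
  · rw [min_eq_right h]
    by_cases hm : m = 0
    · have : (4 : ℝ) ^ c / mu m ^ 2 = 4 ^ c := by
        rw [hm]
        unfold mu
        rw [ZMod.valMinAbs_zero]
        simp
      rw [this]
      refine hb1.trans ?_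
      have h4 : (1 : ℝ) ≤ 4 ^ c := one_le_pow₀ (by norm_num)
      have h5 : (0 : ℝ) ≤ 2 * (N / 2 ^ c) := by positivity
      nlinarith
    · have hv1 : 1 ≤ |(m.valMinAbs : ℝ)| := by
        have : m.valMinAbs ≠ 0 := fun h => hm ((ZMod.valMinAbs_eq_zero m).mp h)
        have h3 : 1 ≤ |m.valMinAbs| := Int.one_le_abs this
        exact_mod_cast h3
      have hmu : mu m = |(m.valMinAbs : ℝ)| := max_eq_right hv1
      have hv : 0 < |(m.valMinAbs : ℝ)| := by linarith
      rw [hmu]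
      have hA2 := norm_geo_le' α m hm
      have hB2 := norm_geo_le' w m hm
      generalize |(m.valMinAbs : ℝ)| = v at hv1 hv hA2 hB2 ⊢
      calc 1 / (w : ℝ) * (‖geo α m‖ * ‖geo w m‖)
          ≤ 1 / (w : ℝ) * ((N / (2 * v)) * (N / (2 * v))) := by gcongr
        _ ≤ (2 * (2 ^ c / N)) * ((N / (2 * v)) * (N / (2 * v))) := by
            gcongr
            rw [div_le_iff₀ hw0]
            rw [div_lt_iff₀ (by positivity)] at hscale2
            rw [show 2 * (2 ^ c / (N : ℝ)) * w = (2 * w * 2 ^ c) / N by ring,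
              le_div_iff₀ hN]
            linarith
        _ = (1 / 2) * (N / 2 ^ c) * (4 ^ c / v ^ 2) := by
            have : (4 : ℝ) ^ c = 2 ^ c * 2 ^ c := by rw [← mul_pow]; norm_num
            rw [this]
            field_simp
        _ ≤ 2 * (N / 2 ^ c) * (4 ^ c / v ^ 2) := by
            gcongr
            norm_num

/-- Every arc is a sum of bumps of all scales, with a majorant for the fine part. -/
lemma exists_bumps (u : ZMod N) (ℓ : ℕ) (hℓ : ℓ ≤ N) :
    ∃ ψ Ψ : ℕ → ZMod N → ℝ,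
      (∀ c ≤ Nat.log 2 N, IsBump c 2 (ψ c)) ∧ (∀ c ≤ Nat.log 2 N, IsBump c 4 (Ψ c)) ∧
      (∀ x, ∑ c ∈ range (Nat.log 2 N + 1), ψ c x = arc u ℓ x) ∧
      (∀ S ≤ Nat.log 2 N, ∀ x, ∑ c ∈ Ico (S + 1) (Nat.log 2 N + 1), ψ c x ≤ Ψ S x) := by
  set L := Nat.log 2 N with hL
  set K := Nat.log 2 ℓ with hK
  have hKL : K ≤ L := Nat.log_mono_right hℓ
  have hKℓ : 2 ^ K ≤ ℓ + 1 := by
    rcases Nat.eq_zero_or_pos ℓ with h | h
    · rw [hK, h]; norm_num
    · exact (Nat.pow_log_le_self 2 h.ne').trans (Nat.le_succ _)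
  have hKℓ2 : ℓ + 1 ≤ 2 * 2 ^ K := by
    have := Nat.lt_pow_succ_log_self (b := 2) (by norm_num) ℓ
    rw [← hK, pow_succ] at this
    omega
  -- pieces indexed by the scale `2^i`
  let ψ' : ℕ → ZMod N → ℝ := fun i x =>
    if i < K then tents u ℓ i x
    else if i = K then (1 / 2 ^ K : ℝ) * conv u (ℓ + 1 - 2 ^ K) (2 ^ K) x else 0
  have hψ'0 : ∀ i x, 0 ≤ ψ' i x := by
    intro i x
    simp only [ψ']
    split_ifs
    · exact mul_nonneg (by positivity) (add_nonneg (conv_nonneg _ _ _ _) (conv_nonneg _ _ _ _))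
    · exact mul_nonneg (by positivity) (conv_nonneg _ _ _ _)
    · exact le_rfl
  have hψ'b : ∀ c ≤ L, IsBump c 2 (ψ' (L - c)) := by
    intro c hc
    simp only [ψ']
    by_cases h1 : L - c < K
    · simp only [h1, if_true]
      have e1 := (isBump_conv c hc u (2 ^ (L - c)) (by rw [← hL]; omega)).smul
        (r := 1 / 2) (by norm_num)
      have e2 := (isBump_conv c hc (u + ((ℓ + 1 - 2 ^ (L - c + 1) : ℕ) : ZMod N)) (2 ^ (L - c))
        (by rw [← hL]; omega)).smul (r := 1 / 2) (by norm_num)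
      have e3 := e1.add e2
      rw [← hL] at e3
      have e4 : (fun x => 1 / 2 * (1 / 2 ^ (L - c) * conv u (2 ^ (L - c)) (2 ^ (L - c)) x) +
          1 / 2 * (1 / 2 ^ (L - c) * conv (u + ((ℓ + 1 - 2 ^ (L - c + 1) : ℕ) : ZMod N))
            (2 ^ (L - c)) (2 ^ (L - c)) x)) = fun x => tents u ℓ (L - c) x := by
        funext x
        unfold tents
        have : (1 / (2 * 2 ^ (L - c)) : ℝ) = 1 / 2 * (1 / 2 ^ (L - c)) := by
          rw [one_div_mul_one_div]
        rw [this]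
        ring
      rw [e4] at e3
      exact e3.mono (by norm_num)
    · simp only [h1, if_false]
      by_cases h2 : L - c = K
      · simp only [h2, if_true]
        have e := isBump_conv c hc u (ℓ + 1 - 2 ^ K) (by rw [← hL, h2]; omega)
        rw [← hL, h2] at e
        exact e
      · simp only [h2, if_false]
        exact (isBump_zero c).mono (by norm_num)
  have hsum' : ∀ x, ∑ i ∈ range (L + 1), ψ' i x = arc u ℓ x := by
    intro x
    rw [arc_eq u ℓ K hKℓ x]
    have h1 : ∑ i ∈ range (L + 1), ψ' i x = ∑ i ∈ range (K + 1), ψ' i x := by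
      symm
      apply Finset.sum_subset (Finset.range_mono (by omega))
      intro i _ hi
      rw [Finset.mem_range] at hi
      simp only [ψ']
      rw [if_neg (by omega), if_neg (by omega)]
    rw [h1, Finset.sum_range_succ, add_comm]
    congr 1
    · simp only [ψ', lt_irrefl, if_false, if_true]
    · refine Finset.sum_congr rfl fun i hi => ?_
      rw [Finset.mem_range] at hi
      simp only [ψ', hi, if_true]
  have htail : ∀ A, ∀ x, ∑ i ∈ range A, ψ' i x ≤
      arc u (2 ^ A) x + arc (u + ((ℓ + 1 - 2 ^ A : ℕ) : ZMod N)) (2 ^ A) x := by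
    intro A x
    by_cases hA : A ≤ K
    · have h1 : ∑ i ∈ range A, ψ' i x = ∑ i ∈ range A, tents u ℓ i x := by
        refine Finset.sum_congr rfl fun i hi => ?_
        rw [Finset.mem_range] at hi
        simp only [ψ']
        rw [if_pos (by omega)]
      rw [h1]
      have h2 := left_tents_le u A x
      have h3 := right_tents_le u ℓ A
        ((Nat.pow_le_pow_right (by norm_num) hA).trans hKℓ) x
      have h4 : ∑ i ∈ range A, tents u ℓ i x =
          ∑ i ∈ range A, (1 / (2 * 2 ^ i : ℝ)) * conv u (2 ^ i) (2 ^ i) x +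
          ∑ i ∈ range A, (1 / (2 * 2 ^ i : ℝ)) *
            conv (u + ((ℓ + 1 - 2 ^ (i + 1) : ℕ) : ZMod N)) (2 ^ i) (2 ^ i) x := by
        rw [← Finset.sum_add_distrib]
        refine Finset.sum_congr rfl fun i _ => ?_
        unfold tents
        rw [mul_add]
      rw [h4]
      exact add_le_add h2 h3
    · have h1 : ∑ i ∈ range A, ψ' i x ≤ arc u ℓ x := by
        rcases le_total A (L + 1) with h | h
        · rw [← hsum' x]
          exact Finset.sum_le_sum_of_subset_of_nonneg (Finset.range_mono h)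
            fun i _ _ => hψ'0 i x
        · rw [← hsum' x]
          apply le_of_eq
          symm
          apply Finset.sum_subset (Finset.range_mono h)
          intro i _ hi
          rw [Finset.mem_range] at hi
          simp only [ψ']
          rw [if_neg (by omega), if_neg (by omega)]
      have h2 : arc u ℓ x ≤ arc u (2 ^ A) x := by
        apply arc_mono
        have : 2 * 2 ^ K ≤ 2 ^ A := by
          rw [← pow_succ']
          exact Nat.pow_le_pow_right (by norm_num) (by omega)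
        omega
      have h3 := arc_nonneg (u + ((ℓ + 1 - 2 ^ A : ℕ) : ZMod N)) (2 ^ A) x
      linarith
  let cen : ℕ → ZMod N → ZMod N := fun A v => v - ((2 ^ A - 1 : ℕ) : ZMod N)
  refine ⟨fun c => ψ' (L - c), fun c x =>
    (1 / 2 ^ (L - c) : ℝ) * conv (cen (L - c) u) (2 * 2 ^ (L - c)) (2 ^ (L - c)) x +
    (1 / 2 ^ (L - c) : ℝ) * conv (cen (L - c) (u + ((ℓ + 1 - 2 ^ (L - c) : ℕ) : ZMod N)))
      (2 * 2 ^ (L - c)) (2 ^ (L - c)) x, hψ'b, ?_, ?_, ?_⟩
  · intro c hc
    have e1 := isBump_conv c hc (cen (L - c) u) (2 * 2 ^ (L - c)) (by rw [← hL])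
    have e2 := isBump_conv c hc (cen (L - c) (u + ((ℓ + 1 - 2 ^ (L - c) : ℕ) : ZMod N)))
      (2 * 2 ^ (L - c)) (by rw [← hL])
    rw [← hL] at e1 e2
    exact (e1.add e2).mono (by norm_num)
  · intro x
    rw [← hsum' x]
    exact Finset.sum_range_reflect (fun i => ψ' i x) (L + 1)
  · intro S hS x
    have h1 : ∑ c ∈ Ico (S + 1) (L + 1), ψ' (L - c) x = ∑ i ∈ range (L - S), ψ' i x := by
      rw [Finset.sum_Ico_eq_sum_range]
      rw [show L + 1 - (S + 1) = L - S by omega]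
      rw [← Finset.sum_range_reflect]
      refine Finset.sum_congr rfl fun i hi => ?_
      rw [Finset.mem_range] at hi
      congr 1
      omega
    refine (le_of_eq h1).trans ((htail (L - S) x).trans ?_)
    have hp : 0 < 2 ^ (L - S) := by positivity
    have e1 := arc_le_conv u (2 ^ (L - S)) hp x
    have e2 := arc_le_conv (u + ((ℓ + 1 - 2 ^ (L - S) : ℕ) : ZMod N)) (2 ^ (L - S)) hp x
    push_cast at e1 e2
    simp only [cen]
    linarith

end Pool.Agent.Lib.MP_dc06b6_nt
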