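import Mathlib

/-!
# Digit decomposition of the radical inverse
-/

set_option autoImplicit false

namespace Pool.Agent.Lib.MP_dc06b6_nt

open Finset

/-- Digit reversal of the first `J` digits. -/
def rev (b : ℕ) : ℕ → ℕ → ℕ
  | 0, _ => 0
  | J + 1, n => b * rev b J n + n / b ^ J % b

lemma rev_lt {b : ℕ} (hb : 0 < b) (J n : ℕ) : rev b J n < b ^ J := by
  induction J with
  | zero => simp [rev]
  | succ J ih =>
    rw [rev, pow_succ]
    have h1 : n / b ^ J % b < b := Nat.mod_lt _ hb
    calc b * rev b J n + n / b ^ J % b < b * rev b J n + b := by omega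
      _ = b * (rev b J n + 1) := by ring
      _ ≤ b * b ^ J := Nat.mul_le_mul_left _ ih
      _ = b ^ J * b := by ring

lemma add_mul_inj {b x y x' y' : ℕ} (hy : y < b) (hy' : y' < b) (h : b * x + y = b * x' + y') :
    x = x' ∧ y = y' := by
  have hb : 0 < b := by omega
  have h1 : (b * x + y) / b = x := by
    rw [Nat.mul_add_div hb, Nat.div_eq_of_lt hy, add_zero]
  have h2 : (b * x' + y') / b = x' := by
    rw [Nat.mul_add_div hb, Nat.div_eq_of_lt hy', add_zero]
  have h3 : x = x' := by rw [← h1, h, h2]
  subst h3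
  exact ⟨rfl, by omega⟩

lemma rev_eq_iff {b : ℕ} (hb : 0 < b) (J n n' : ℕ) :
    rev b J n = rev b J n' ↔ n ≡ n' [MOD b ^ J] := by
  induction J with
  | zero => simp [rev, Nat.modEq_one]
  | succ J ih =>
    have hpos : 0 < b ^ J := by positivity
    unfold Nat.ModEq at *
    rw [rev, rev, pow_succ, Nat.mod_mul, Nat.mod_mul]
    have h1 : n / b ^ J % b < b := Nat.mod_lt _ hb
    have h1' : n' / b ^ J % b < b := Nat.mod_lt _ hb
    have h2 : n % b ^ J < b ^ J := Nat.mod_lt _ hpos
    have h2' : n' % b ^ J < b ^ J := Nat.mod_lt _ hpos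
    constructor
    · intro h
      obtain ⟨h3, h4⟩ := add_mul_inj h1 h1' h
      rw [ih.mp h3, h4]
    · intro h
      rw [add_comm (n % b ^ J), add_comm (n' % b ^ J)] at h
      obtain ⟨h3, h4⟩ := add_mul_inj h2 h2' h
      rw [ih.mpr h4, h3]

lemma exists_class {b : ℕ} (hb : 0 < b) (J V : ℕ) (hV : V < b ^ J) :
    ∃ a : ℕ, ∀ n, rev b J n = V ↔ n ≡ a [MOD b ^ J] := by
  have hinj : Function.Injective (fun n : Fin (b ^ J) => (⟨rev b J n, rev_lt hb J n⟩ : Fin (b ^ J))) := by
    intro n n' h
    have h1 : rev b J n = rev b J n' := congrArg Fin.val h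
    rw [rev_eq_iff hb] at h1
    have h2 : (n : ℕ) % b ^ J = (n' : ℕ) % b ^ J := h1
    rw [Nat.mod_eq_of_lt n.2, Nat.mod_eq_of_lt n'.2] at h2
    exact Fin.ext h2
  have hsurj := Finite.surjective_of_injective hinj
  obtain ⟨a, ha⟩ := hsurj ⟨V, hV⟩
  have ha' : rev b J a = V := congrArg Fin.val ha
  refine ⟨a, fun n => ?_⟩
  rw [← ha']
  exact rev_eq_iff hb J n a

/-- `f` is a signed combination of residue classes modulo the powers `b^j`, `j ≤ J`, with at most
`R` classes for each power; `ρ` is the corresponding density. -/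
def Rep (b J R : ℕ) (f : ℕ → ℝ) (ρ : ℝ) : Prop :=
  ∃ (α : ℕ → ℕ → ℕ) (ε : ℕ → ℕ → ℝ), (∀ j e, |ε j e| ≤ 1) ∧
    (∀ n, f n = ∑ j ∈ range (J + 1), ∑ e ∈ range R,
      ε j e * (if n ≡ α j e [MOD b ^ j] then 1 else 0)) ∧
    ρ = ∑ j ∈ range (J + 1), ∑ e ∈ range R, ε j e * (1 / (b : ℝ) ^ j)

lemma rep_rev {b : ℕ} (hb : 2 ≤ b) : ∀ J V, V ≤ b ^ J →
    Rep b J b (fun n => if rev b J n < V then 1 else 0) (V / (b : ℝ) ^ J) := by
  have hb0 : 0 < b := by omega
  have hbR : (b : ℝ) ≠ 0 := by positivity
  intro J
  induction J with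
  | zero =>
    intro V hV
    rw [pow_zero] at hV
    refine ⟨fun _ _ => 0, fun _ e => if e = 0 ∧ V = 1 then 1 else 0, fun j e => ?_, fun n => ?_, ?_⟩
    · dsimp only
      split_ifs <;> simp
    · simp only [zero_add, Finset.sum_range_one, pow_zero, Nat.modEq_one, if_true, mul_one, rev]
      rw [Finset.sum_eq_single 0]
      · interval_cases V <;> simp
      · intro e _ he
        simp [he]
      · intro h
        exact absurd (Finset.mem_range.mpr hb0) h
    · simp only [zero_add, Finset.sum_range_one, pow_zero, div_one, mul_one]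
      rw [Finset.sum_eq_single 0]
      · interval_cases V <;> simp
      · intro e _ he
        simp [he]
      · intro h
        exact absurd (Finset.mem_range.mpr hb0) h
  | succ J ih =>
    intro V hV
    have hV' : V / b ≤ b ^ J := by
      rw [pow_succ] at hV
      exact Nat.div_le_of_le_mul (by rw [mul_comm]; exact hV)
    obtain ⟨α, ε, hε, hf, hρ⟩ := ih (V / b) hV'
    set r := V % b with hr
    have hrb : r < b := Nat.mod_lt _ hb0
    have hVr : V = b * (V / b) + r := (Nat.div_add_mod V b).symm
    -- residues of the last level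
    have hcl : ∀ y, ∃ a : ℕ, y < r → ∀ n, rev b (J + 1) n = b * (V / b) + y ↔ n ≡ a [MOD b ^ (J + 1)] := by
      intro y
      by_cases hy : y < r
      · obtain ⟨a, ha⟩ := exists_class hb0 (J + 1) (b * (V / b) + y) (by omega)
        exact ⟨a, fun _ => ha⟩
      · exact ⟨0, fun h => absurd h hy⟩
    choose α' hα' using hcl
    refine ⟨fun j e => if j = J + 1 then α' e else α j e,
      fun j e => if j = J + 1 then (if e < r then 1 else 0) else ε j e, ?_, ?_, ?_⟩
    · intro j e
      dsimp only
      split_ifs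
      · simp
      · simp
      · exact hε j e
    · intro n
      dsimp only
      rw [Finset.sum_range_succ]
      have h1 : ∑ j ∈ range (J + 1), ∑ e ∈ range b,
          (if j = J + 1 then (if e < r then (1 : ℝ) else 0) else ε j e) *
            (if n ≡ (if j = J + 1 then α' e else α j e) [MOD b ^ j] then 1 else 0) =
          ∑ j ∈ range (J + 1), ∑ e ∈ range b,
            ε j e * (if n ≡ α j e [MOD b ^ j] then 1 else 0) := by
        refine Finset.sum_congr rfl fun j hj => Finset.sum_congr rfl fun e _ => ?_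
        rw [Finset.mem_range] at hj
        have hj' : j ≠ J + 1 := by omega
        simp only [hj', if_false]
      rw [h1]
      simp only at hf
      rw [← hf n]
      simp only [if_true]
      have h2 : ∑ e ∈ range b, (if e < r then (1 : ℝ) else 0) *
          (if n ≡ α' e [MOD b ^ (J + 1)] then 1 else 0) =
          ∑ e ∈ range b, (if (e < r ∧ n / b ^ J % b = e ∧ rev b J n = V / b) then (1 : ℝ) else 0) := by
        refine Finset.sum_congr rfl fun e he => ?_
        rw [Finset.mem_range] at he
        by_cases her : e < r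
        · have h3 := hα' e her n
          have h4 : rev b (J + 1) n = b * (V / b) + e ↔ (n / b ^ J % b = e ∧ rev b J n = V / b) := by
            rw [rev]
            constructor
            · intro h
              obtain ⟨h5, h6⟩ := add_mul_inj (Nat.mod_lt _ hb0) he h
              exact ⟨h6, h5⟩
            · rintro ⟨h5, h6⟩
              rw [h5, h6]
          rw [h3] at h4
          simp only [her, if_true, one_mul, true_and, h4]
        · simp [her]
      rw [h2]
      have hd : n / b ^ J % b < b := Nat.mod_lt _ hb0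
      have h3 : ∑ e ∈ range b,
          (if (e < r ∧ n / b ^ J % b = e ∧ rev b J n = V / b) then (1 : ℝ) else 0) =
          if (n / b ^ J % b < r ∧ rev b J n = V / b) then 1 else 0 := by
        rw [Finset.sum_eq_single (n / b ^ J % b)]
        · simp
        · intro e _ he
          rw [if_neg]
          rintro ⟨-, h, -⟩
          exact he h.symm
        · intro h
          exact absurd (Finset.mem_range.mpr hd) h
      rw [h3]
      have h4 : rev b (J + 1) n = b * rev b J n + n / b ^ J % b := rfl
      generalize n / b ^ J % b = y at *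
      generalize rev b J n = x at *
      rw [h4]
      generalize V / b = q at *
      have h5 : b * x + y < V ↔ (x < q ∨ (y < r ∧ x = q)) := by
        constructor
        · intro h
          rcases lt_trichotomy x q with h6 | h6 | h6
          · exact Or.inl h6
          · right
            subst h6
            exact ⟨by omega, rfl⟩
          · exfalso
            have h7 : b * (q + 1) ≤ b * x := Nat.mul_le_mul_left b h6
            have h8 : b * (q + 1) = b * q + b := by ring
            omega
        · rintro (h6 | ⟨h6, h7⟩)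
          · have h7 : b * (x + 1) ≤ b * q := Nat.mul_le_mul_left b h6
            have h8 : b * (x + 1) = b * x + b := by ring
            omega
          · subst h7
            omega
      by_cases c1 : x < q
      · have c2 : ¬ (y < r ∧ x = q) := fun h => by omega
        rw [if_pos (h5.mpr (Or.inl c1)), if_pos c1, if_neg c2, add_zero]
      · by_cases c2 : y < r ∧ x = q
        · rw [if_pos (h5.mpr (Or.inr c2)), if_neg c1, if_pos c2, zero_add]
        · rw [if_neg (fun h => (h5.mp h).elim c1 c2), if_neg c1, if_neg c2, zero_add]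
    · rw [Finset.sum_range_succ]
      have h1 : ∑ j ∈ range (J + 1), ∑ e ∈ range b,
          (if j = J + 1 then (if e < r then (1 : ℝ) else 0) else ε j e) * (1 / (b : ℝ) ^ j) =
          ∑ j ∈ range (J + 1), ∑ e ∈ range b, ε j e * (1 / (b : ℝ) ^ j) := by
        refine Finset.sum_congr rfl fun j hj => Finset.sum_congr rfl fun e _ => ?_
        rw [Finset.mem_range] at hj
        rw [if_neg (by omega)]
      rw [h1, ← hρ]
      simp only [if_true]
      rw [← Finset.sum_mul]
      have h2 : ∑ e ∈ range b, (if e < r then (1 : ℝ) else 0) = r := by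
        rw [Finset.sum_boole]
        have : {e ∈ range b | e < r} = range r := by
          ext e
          simp only [Finset.mem_filter, Finset.mem_range]
          omega
        rw [this, Finset.card_range]
      rw [h2]
      have h3 : (V : ℝ) = b * ((V / b : ℕ) : ℝ) + r := by exact_mod_cast hVr
      rw [pow_succ]
      field_simp
      rw [h3]

lemma Rep.sub {b J R R' : ℕ} {f f' : ℕ → ℝ} {ρ ρ' : ℝ} (h : Rep b J R f ρ)
    (h' : Rep b J R' f' ρ') : Rep b J (R + R') (fun n => f n - f' n) (ρ - ρ') := by
  obtain ⟨α, ε, hε, hf, hρ⟩ := h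
  obtain ⟨α', ε', hε', hf', hρ'⟩ := h'
  refine ⟨fun j e => if e < R then α j e else α' j (e - R),
    fun j e => if e < R then ε j e else - ε' j (e - R), ?_, ?_, ?_⟩
  · intro j e
    dsimp only
    split_ifs
    · exact hε j e
    · rw [abs_neg]; exact hε' j _
  · intro n
    dsimp only
    rw [hf n, hf' n, ← Finset.sum_sub_distrib]
    refine Finset.sum_congr rfl fun j _ => ?_
    rw [Finset.sum_range_add]
    rw [sub_eq_add_neg, ← Finset.sum_neg_distrib]
    congr 1
    · refine Finset.sum_congr rfl fun e he => ?_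
      rw [Finset.mem_range] at he
      simp only [he, if_true]
    · refine Finset.sum_congr rfl fun e he => ?_
      have : ¬ (R + e < R) := by omega
      simp only [this, if_false, Nat.add_sub_cancel_left]
      ring
  · rw [hρ, hρ', ← Finset.sum_sub_distrib]
    refine Finset.sum_congr rfl fun j _ => ?_
    rw [Finset.sum_range_add]
    rw [sub_eq_add_neg, ← Finset.sum_neg_distrib]
    congr 1
    · refine Finset.sum_congr rfl fun e he => ?_
      rw [Finset.mem_range] at he
      simp only [he, if_true]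
    · refine Finset.sum_congr rfl fun e he => ?_
      have : ¬ (R + e < R) := by omega
      simp only [this, if_false, Nat.add_sub_cancel_left]
      ring

lemma rep_zero (b J R : ℕ) : Rep b J R (fun _ => 0) 0 :=
  ⟨fun _ _ => 0, fun _ _ => 0, by simp, by simp, by simp⟩

lemma Rep.mono {b J R R' : ℕ} {f : ℕ → ℝ} {ρ : ℝ} (h : Rep b J R f ρ) (hR : R ≤ R') :
    Rep b J R' f ρ := by
  have h1 := h.sub (rep_zero b J (R' - R))
  simp only [sub_zero] at h1
  rwa [Nat.add_sub_cancel' hR] at h1

/-- Product of representable functions against a weight. -/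
lemma prod_rep {s : ℕ} (b : Fin s → ℕ) (J R : ℕ) (G : Fin s → ℕ → ℝ) (ρ : Fin s → ℝ)
    (hG : ∀ i, Rep (b i) J R (G i) (ρ i)) (S : Finset ℕ) (T : ℕ → ℝ) (Z : ℝ)
    (Err : (Fin s → ℕ) → ℝ)
    (hErr : ∀ j ∈ Fintype.piFinset (fun _ : Fin s => range (J + 1)), ∀ α : Fin s → ℕ,
      |∑ n ∈ S, T n * (if ∀ i, n ≡ α i [MOD b i ^ j i] then 1 else 0) -
        Z * ∏ i, (1 / (b i : ℝ) ^ j i)| ≤ Err j) :
    |∑ n ∈ S, T n * ∏ i, G i n - Z * ∏ i, ρ i| ≤
      R ^ s * ∑ j ∈ Fintype.piFinset (fun _ : Fin s => range (J + 1)), Err j := by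
  choose α ε hε hf hρ using hG
  have e1 : ∀ n, ∏ i, G i n = ∑ j ∈ Fintype.piFinset (fun _ : Fin s => range (J + 1)),
      ∑ e ∈ Fintype.piFinset (fun _ : Fin s => range R), (∏ i, ε i (j i) (e i)) *
        (if ∀ i, n ≡ α i (j i) (e i) [MOD b i ^ j i] then 1 else 0) := by
    intro n
    rw [Finset.prod_congr rfl fun i _ => hf i n, Finset.prod_univ_sum]
    refine Finset.sum_congr rfl fun j _ => ?_
    rw [Finset.prod_univ_sum]
    refine Finset.sum_congr rfl fun e _ => ?_
    rw [Finset.prod_mul_distrib]
    congr 1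
    by_cases h : ∀ i, n ≡ α i (j i) (e i) [MOD b i ^ j i]
    · rw [if_pos h]
      exact Finset.prod_eq_one fun i _ => if_pos (h i)
    · rw [if_neg h]
      push Not at h
      obtain ⟨i, hi⟩ := h
      exact Finset.prod_eq_zero (Finset.mem_univ i) (if_neg hi)
  have e2 : ∏ i, ρ i = ∑ j ∈ Fintype.piFinset (fun _ : Fin s => range (J + 1)),
      ∑ e ∈ Fintype.piFinset (fun _ : Fin s => range R), (∏ i, ε i (j i) (e i)) *
        ∏ i, (1 / (b i : ℝ) ^ j i) := by
    rw [Finset.prod_congr rfl fun i _ => hρ i, Finset.prod_univ_sum]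
    refine Finset.sum_congr rfl fun j _ => ?_
    rw [Finset.prod_univ_sum]
    refine Finset.sum_congr rfl fun e _ => ?_
    rw [Finset.prod_mul_distrib]
  have e3 : ∑ n ∈ S, T n * ∏ i, G i n - Z * ∏ i, ρ i =
      ∑ j ∈ Fintype.piFinset (fun _ : Fin s => range (J + 1)),
      ∑ e ∈ Fintype.piFinset (fun _ : Fin s => range R), (∏ i, ε i (j i) (e i)) *
        (∑ n ∈ S, T n * (if ∀ i, n ≡ α i (j i) (e i) [MOD b i ^ j i] then 1 else 0) -
          Z * ∏ i, (1 / (b i : ℝ) ^ j i)) := by
    have h1 : ∑ n ∈ S, T n * ∏ i, G i n =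
        ∑ j ∈ Fintype.piFinset (fun _ : Fin s => range (J + 1)),
        ∑ e ∈ Fintype.piFinset (fun _ : Fin s => range R), (∏ i, ε i (j i) (e i)) *
          ∑ n ∈ S, T n * (if ∀ i, n ≡ α i (j i) (e i) [MOD b i ^ j i] then 1 else 0) := by
      simp only [e1, Finset.mul_sum]
      rw [Finset.sum_comm]
      refine Finset.sum_congr rfl fun j _ => ?_
      rw [Finset.sum_comm]
      refine Finset.sum_congr rfl fun e _ => Finset.sum_congr rfl fun n _ => ?_
      ring
    rw [h1, e2, Finset.mul_sum, ← Finset.sum_sub_distrib]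
    refine Finset.sum_congr rfl fun j _ => ?_
    rw [Finset.mul_sum, ← Finset.sum_sub_distrib]
    refine Finset.sum_congr rfl fun e _ => ?_
    ring
  rw [e3, Finset.mul_sum]
  refine (Finset.abs_sum_le_sum_abs _ _).trans (Finset.sum_le_sum fun j hj => ?_)
  refine (Finset.abs_sum_le_sum_abs _ _).trans ?_
  have h4 : ∀ e ∈ Fintype.piFinset (fun _ : Fin s => range R),
      |(∏ i, ε i (j i) (e i)) *
        (∑ n ∈ S, T n * (if ∀ i, n ≡ α i (j i) (e i) [MOD b i ^ j i] then 1 else 0) -
          Z * ∏ i, (1 / (b i : ℝ) ^ j i))| ≤ Err j := by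
    intro e _
    rw [abs_mul]
    have h5 : |∏ i, ε i (j i) (e i)| ≤ 1 := by
      rw [Finset.abs_prod]
      exact Finset.prod_le_one (fun i _ => abs_nonneg _) fun i _ => hε i _ _
    have h6 := hErr j hj fun i => α i (j i) (e i)
    calc _ ≤ 1 * Err j := mul_le_mul h5 h6 (abs_nonneg _) zero_le_one
      _ = Err j := one_mul _
  refine (Finset.sum_le_sum h4).trans ?_
  rw [Finset.sum_const, Fintype.card_piFinset_const, Finset.card_range, nsmul_eq_mul]
  push_cast
  exact le_rfl

end Pool.Agent.Lib.MP_dc06b6_nt
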