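import Pool.Agent.Lib.MP_dc06b6_nt.Exists
import Pool.Agent.Lib.MP_dc06b6_nt.Halton

/-!
# Counting in residue classes, and the box count
-/

set_option autoImplicit false
set_option linter.unusedSectionVars false

namespace Pool.Agent.Lib.MP_dc06b6_nt

open Finset

section

variable {N : ℕ} [NeZero N]

lemma sum_arc_mul (u : ZMod N) (w : ℕ) (F : ZMod N → ℝ) :
    ∑ x, arc u w x * F x = ∑ a ∈ range w, F (u + (a : ZMod N)) := by
  unfold arc
  simp only [Finset.sum_mul]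
  rw [Finset.sum_comm]
  refine Finset.sum_congr rfl fun a _ => ?_
  rw [Finset.sum_eq_single (u + (a : ZMod N))]
  · simp
  · intro x _ hx
    simp [hx]
  · intro h
    exact absurd (Finset.mem_univ _) h

lemma arc_sub (c d : ZMod N) (ℓ : ℕ) (x : ZMod N) : arc (c - d) ℓ x = arc c ℓ (x + d) := by
  unfold arc
  refine Finset.sum_congr rfl fun a _ => ?_
  have : x = c - d + (a : ZMod N) ↔ x + d = c + (a : ZMod N) := by
    constructor
    · intro h; rw [h]; ring
    · intro h; linear_combination h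
  simp only [this]

lemma arc_eq_indicator {C₀ C₁ : ℕ} (h : C₀ ≤ C₁) (h1 : C₁ ≤ N) (x : ZMod N) :
    arc (C₀ : ZMod N) (C₁ - C₀) x = if C₀ ≤ x.val ∧ x.val < C₁ then 1 else 0 := by
  unfold arc
  have key : ∀ a ∈ range (C₁ - C₀), (x = (C₀ : ZMod N) + (a : ZMod N) ↔ x.val = C₀ + a) := by
    intro a ha
    rw [Finset.mem_range] at ha
    constructor
    · intro hx
      rw [hx, ← Nat.cast_add, ZMod.val_natCast, Nat.mod_eq_of_lt (by omega)]
    · intro hx
      rw [← ZMod.natCast_zmod_val x, hx]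
      push_cast
      rfl
  split_ifs with hc
  · rw [Finset.sum_eq_single (x.val - C₀)]
    · have hm : x.val - C₀ ∈ range (C₁ - C₀) := by rw [Finset.mem_range]; omega
      rw [if_pos ((key _ hm).mpr (by omega))]
    · intro a ha hne
      rw [if_neg]
      rw [key a ha]
      omega
    · intro hn
      exfalso
      apply hn
      rw [Finset.mem_range]
      omega
  · refine Finset.sum_eq_zero fun a ha => ?_
    rw [if_neg]
    rw [key a ha]
    rw [Finset.mem_range] at ha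
    intro hx
    apply hc
    omega

end

lemma crt {s : ℕ} (b : Fin s → ℕ) (hb : ∀ i, (b i).Prime) (hinj : Function.Injective b)
    (j : Fin s → ℕ) (α : Fin s → ℕ) :
    ∃ a : ℕ, ∀ n, (∀ i, n ≡ α i [MOD b i ^ j i]) ↔ n ≡ a [MOD ∏ i, b i ^ j i] := by
  have hcop : Set.Pairwise (↑(Finset.univ : Finset (Fin s))) (Function.onFun Nat.Coprime fun i => b i ^ j i) := by
    intro i _ i' _ hne
    have h1 : Nat.Coprime (b i) (b i') := (Nat.coprime_primes (hb i) (hb i')).mpr (hinj.ne hne)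
    exact Nat.Coprime.pow _ _ h1
  obtain ⟨a, ha⟩ := Nat.chineseRemainderOfFinset α (fun i => b i ^ j i) Finset.univ
    (fun i _ => pow_ne_zero _ (hb i).ne_zero) hcop
  refine ⟨a, fun n => ?_⟩
  constructor
  · intro h
    rw [Nat.modEq_iff_dvd]
    push_cast
    apply Finset.prod_dvd_of_coprime
    · intro i _ i' _ hne
      have h1 := hcop (Finset.mem_coe.mpr (Finset.mem_univ i))
        (Finset.mem_coe.mpr (Finset.mem_univ i')) hne
      have h2 : IsCoprime ((b i ^ j i : ℕ) : ℤ) ((b i' ^ j i' : ℕ) : ℤ) :=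
        Nat.isCoprime_iff_coprime.mpr h1
      change IsCoprime ((b i : ℤ) ^ j i) ((b i' : ℤ) ^ j i')
      exact_mod_cast h2
    · intro i _
      have h3 : n ≡ a [MOD b i ^ j i] := (h i).trans (ha i (Finset.mem_univ i)).symm
      rw [Nat.modEq_iff_dvd] at h3
      exact_mod_cast h3
  · intro h i
    have h1 : n ≡ a [MOD b i ^ j i] := h.of_dvd
      (Finset.dvd_prod_of_mem (fun i => b i ^ j i) (Finset.mem_univ i))
    exact h1.trans (ha i (Finset.mem_univ i))

variable {N : ℕ} [Fact N.Prime] {t : ℕ}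

lemma class_count (B : ℕ) (hB : 0 < B) (a a₀ a₁ : ℕ) (h01 : a₀ ≤ a₁) (h1 : a₁ ≤ N)
    (g c : Fin t → ZMod N) (ℓ : Fin t → ℕ) (hℓ : ∀ j, ℓ j ≤ N) :
    |∑ n ∈ Ico a₀ a₁, (∏ j, arc (c j) (ℓ j) ((n : ZMod N) * g j)) *
        (if n ≡ a [MOD B] then 1 else 0) -
      ((a₁ - a₀ : ℝ) * ∏ j, ((ℓ j : ℝ) / N)) * (1 / B)| ≤ latErr (gen (B : ZMod N) g) + 1 := by
  have hprime : N.Prime := Fact.out
  have hNpos : (0 : ℝ) < N := Nat.cast_pos.mpr hprime.pos
  set a' := a % B with ha'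
  have ha'B : a' < B := Nat.mod_lt _ hB
  set e := B - 1 - a' with he
  set k₀ := (a₀ + e) / B with hk₀
  set k₁ := (a₁ + e) / B with hk₁
  have hk01 : k₀ ≤ k₁ := Nat.div_le_div_right (by omega)
  have hk1N : k₁ - k₀ ≤ N := by
    have h2 : k₁ ≤ N := by
      rw [hk₁]
      apply Nat.div_le_of_le_mul
      have hN1 : 1 ≤ N := hprime.one_lt.le
      have h3 : (N - 1) * (B - 1) + (N + B - 1) = B * N := by
        obtain ⟨N', rfl⟩ : ∃ N', N = N' + 1 := ⟨N - 1, by omega⟩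
        obtain ⟨B', rfl⟩ : ∃ B', B = B' + 1 := ⟨B - 1, by omega⟩
        simp only [Nat.add_sub_cancel]
        have : N' + 1 + (B' + 1) - 1 = N' + B' + 1 := by omega
        rw [this]
        ring
      omega
    exact (Nat.sub_le _ _).trans h2
  -- the class sum as a sum over `k`
  have hs1 : ∑ n ∈ Ico a₀ a₁, (∏ j, arc (c j) (ℓ j) ((n : ZMod N) * g j)) *
        (if n ≡ a [MOD B] then (1 : ℝ) else 0) =
      ∑ i ∈ range (k₁ - k₀), ∏ j, arc (c j) (ℓ j) (((a' + B * (k₀ + i) : ℕ) : ZMod N) * g j) := by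
    rw [show (∑ n ∈ Ico a₀ a₁, (∏ j, arc (c j) (ℓ j) ((n : ZMod N) * g j)) *
        (if n ≡ a [MOD B] then (1 : ℝ) else 0)) =
        ∑ n ∈ (Ico a₀ a₁).filter (fun n => n ≡ a [MOD B]),
          ∏ j, arc (c j) (ℓ j) ((n : ZMod N) * g j) by
      rw [Finset.sum_filter]
      refine Finset.sum_congr rfl fun n _ => ?_
      split_ifs <;> simp]
    refine Finset.sum_nbij' (fun n => n / B - k₀) (fun i => a' + B * (k₀ + i)) ?_ ?_ ?_ ?_ ?_
    · intro n hn
      rw [Finset.mem_filter, Finset.mem_Ico] at hn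
      obtain ⟨⟨hn0, hn1⟩, hna⟩ := hn
      have hnB : n % B = a' := hna
      have hdm := Nat.div_add_mod n B
      rw [hnB] at hdm
      rw [Finset.mem_range]
      have h4 : n / B < k₁ := by
        rw [hk₁, Nat.lt_iff_add_one_le, Nat.le_div_iff_mul_le hB]
        have : (n / B + 1) * B = B * (n / B) + B := by ring
        omega
      have h5 : k₀ ≤ n / B := by
        rw [hk₀, ← Nat.lt_add_one_iff, Nat.div_lt_iff_lt_mul hB]
        have : (n / B + 1) * B = B * (n / B) + B := by ring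
        omega
      omega
    · intro i hi
      rw [Finset.mem_range] at hi
      rw [Finset.mem_filter, Finset.mem_Ico]
      have h4 : (k₀ + i) + 1 ≤ k₁ := by omega
      rw [hk₁, Nat.le_div_iff_mul_le hB] at h4
      have h5 : k₀ < (k₀ + i) + 1 := by omega
      rw [hk₀, Nat.div_lt_iff_lt_mul hB, ← hk₀] at h5
      have h6 : ((k₀ + i) + 1) * B = B * (k₀ + i) + B := by ring
      refine ⟨⟨by omega, by omega⟩, ?_⟩
      change (a' + B * (k₀ + i)) % B = a % B
      rw [Nat.add_mul_mod_self_left, Nat.mod_eq_of_lt ha'B]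
    · intro n hn
      rw [Finset.mem_filter, Finset.mem_Ico] at hn
      obtain ⟨⟨hn0, hn1⟩, hna⟩ := hn
      have hnB : n % B = a' := hna
      have hdm := Nat.div_add_mod n B
      rw [hnB] at hdm
      have h5 : k₀ ≤ n / B := by
        rw [hk₀, ← Nat.lt_add_one_iff, Nat.div_lt_iff_lt_mul hB]
        have : (n / B + 1) * B = B * (n / B) + B := by ring
        omega
      have h6 : k₀ + (n / B - k₀) = n / B := by omega
      simp only [h6]
      omega
    · intro i _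
      rw [Nat.add_mul_div_left _ _ hB, Nat.div_eq_of_lt ha'B]
      omega
    · intro n hn
      rw [Finset.mem_filter, Finset.mem_Ico] at hn
      obtain ⟨⟨hn0, hn1⟩, hna⟩ := hn
      have hnB : n % B = a' := hna
      have hdm := Nat.div_add_mod n B
      rw [hnB] at hdm
      have h5 : k₀ ≤ n / B := by
        rw [hk₀, ← Nat.lt_add_one_iff, Nat.div_lt_iff_lt_mul hB]
        have : (n / B + 1) * B = B * (n / B) + B := by ring
        omega
      have h6 : k₀ + (n / B - k₀) = n / B := by omega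
      have h7 : a' + B * (k₀ + (n / B - k₀)) = n := by rw [h6]; omega
      simp only [h7]
  have hs2 : ∑ i ∈ range (k₁ - k₀),
        ∏ j, arc (c j) (ℓ j) (((a' + B * (k₀ + i) : ℕ) : ZMod N) * g j) =
      ∑ k : ZMod N, ∏ i, arc ((Fin.cons (k₀ : ZMod N) fun j => c j - (a' : ZMod N) * g j :
          Fin (t + 1) → ZMod N) i) ((Fin.cons (k₁ - k₀) ℓ : Fin (t + 1) → ℕ) i)
        (k * gen (B : ZMod N) g i) := by
    simp only [Fin.prod_univ_succ, Fin.cons_zero, Fin.cons_succ, gen, mul_one]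
    rw [sum_arc_mul]
    refine Finset.sum_congr rfl fun i _ => Finset.prod_congr rfl fun j _ => ?_
    rw [arc_sub]
    congr 1
    push_cast
    ring
  have hmain := arcs_count (gen (B : ZMod N) g)
    (Fin.cons (k₀ : ZMod N) fun j => c j - (a' : ZMod N) * g j)
    (Fin.cons (k₁ - k₀) ℓ : Fin (t + 1) → ℕ) (by
      intro i
      refine Fin.cases ?_ (fun j => ?_) i
      · simpa using hk1N
      · simpa using hℓ j)
  rw [← hs2, ← hs1] at hmain
  have hexp : (N : ℝ) * ((N : ℝ)⁻¹) ^ (t + 1) *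
      ∏ i, (((Fin.cons (k₁ - k₀) ℓ : Fin (t + 1) → ℕ) i : ℕ) : ℝ) =
      ((k₁ : ℝ) - k₀) * ∏ j, ((ℓ j : ℝ) / N) := by
    rw [Fin.prod_univ_succ]
    simp only [Fin.cons_zero, Fin.cons_succ]
    rw [Nat.cast_sub hk01, Finset.prod_div_distrib, Finset.prod_const, Finset.card_univ,
      Fintype.card_fin, inv_pow, pow_succ]
    field_simp
  rw [hexp] at hmain
  have hP0 : 0 ≤ ∏ j, ((ℓ j : ℝ) / N) := Finset.prod_nonneg fun j _ => by positivity
  have hP1 : ∏ j, ((ℓ j : ℝ) / N) ≤ 1 := Finset.prod_le_one (fun j _ => by positivity) fun j _ => by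
    rw [div_le_one hNpos]
    exact_mod_cast hℓ j
  have hBR : (0 : ℝ) < B := Nat.cast_pos.mpr hB
  have hk : |((k₁ : ℝ) - k₀) - (a₁ - a₀) * (1 / B)| ≤ 1 := by
    have h2 : (B : ℝ) * k₁ + ((a₁ + e) % B : ℕ) = a₁ + e := by exact_mod_cast Nat.div_add_mod (a₁ + e) B
    have h3 : (B : ℝ) * k₀ + ((a₀ + e) % B : ℕ) = a₀ + e := by exact_mod_cast Nat.div_add_mod (a₀ + e) B
    have h4 : (((a₁ + e) % B : ℕ) : ℝ) < B := by exact_mod_cast Nat.mod_lt _ hB
    have h5 : (((a₀ + e) % B : ℕ) : ℝ) < B := by exact_mod_cast Nat.mod_lt _ hB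
    have h6 : (0 : ℝ) ≤ (((a₁ + e) % B : ℕ) : ℝ) := Nat.cast_nonneg _
    have h7 : (0 : ℝ) ≤ (((a₀ + e) % B : ℕ) : ℝ) := Nat.cast_nonneg _
    have h8 : ((k₁ : ℝ) - k₀) - (a₁ - a₀) * (1 / B) =
        ((((a₀ + e) % B : ℕ) : ℝ) - (((a₁ + e) % B : ℕ) : ℝ)) / B := by
      rw [eq_div_iff hBR.ne']
      have : (((k₁ : ℝ) - k₀) - (a₁ - a₀) * (1 / B)) * B = (k₁ - k₀) * B - (a₁ - a₀) := by
        field_simp
      rw [this]
      linarith
    rw [h8, abs_div, abs_of_pos hBR, div_le_one hBR, abs_le]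
    constructor <;> linarith
  have hfin : |((k₁ : ℝ) - k₀) * ∏ j, ((ℓ j : ℝ) / N) -
      ((a₁ - a₀ : ℝ) * ∏ j, ((ℓ j : ℝ) / N)) * (1 / B)| ≤ 1 := by
    have : ((k₁ : ℝ) - k₀) * ∏ j, ((ℓ j : ℝ) / N) -
      ((a₁ - a₀ : ℝ) * ∏ j, ((ℓ j : ℝ) / N)) * (1 / B) =
      (((k₁ : ℝ) - k₀) - (a₁ - a₀) * (1 / B)) * ∏ j, ((ℓ j : ℝ) / N) := by ring
    rw [this, abs_mul, abs_of_nonneg hP0]
    calc _ ≤ 1 * 1 := mul_le_mul hk hP1 hP0 zero_le_one
      _ = 1 := one_mul 1
  have htri := abs_sub_le (∑ n ∈ Ico a₀ a₁, (∏ j, arc (c j) (ℓ j) ((n : ZMod N) * g j)) *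
        (if n ≡ a [MOD B] then (1 : ℝ) else 0)) (((k₁ : ℝ) - k₀) * ∏ j, ((ℓ j : ℝ) / N))
        (((a₁ - a₀ : ℝ) * ∏ j, ((ℓ j : ℝ) / N)) * (1 / B))
  linarith

end Pool.Agent.Lib.MP_dc06b6_nt
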