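import Pool.Agent.Lib.MP_dc06b6_nt.Bumps

/-!
# Hyperbolic cross decomposition and the resulting lattice point bound
-/

set_option autoImplicit false
set_option linter.unusedSectionVars false

namespace Pool.Agent.Lib.MP_dc06b6_nt

open Finset

/-- Exponent vectors of total degree at most `S`. -/
def cs (d S : ℕ) : Finset (Fin d → ℕ) :=
  (Fintype.piFinset fun _ : Fin d => range (S + 1)).filter fun c => ∑ i, c i ≤ S

/-- Exponent vectors of total degree exactly `S`. -/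
def ce (d S : ℕ) : Finset (Fin d → ℕ) :=
  (Fintype.piFinset fun _ : Fin d => range (S + 1)).filter fun c => ∑ i, c i = S

lemma mem_cs {d S : ℕ} {c : Fin d → ℕ} : c ∈ cs d S ↔ ∑ i, c i ≤ S := by
  unfold cs
  rw [Finset.mem_filter, Fintype.mem_piFinset]
  refine ⟨fun h => h.2, fun h => ⟨fun i => ?_, h⟩⟩
  rw [Finset.mem_range]
  have := Finset.single_le_sum (f := c) (fun i _ => Nat.zero_le _) (Finset.mem_univ i)
  omega

lemma mem_ce {d S : ℕ} {c : Fin d → ℕ} : c ∈ ce d S ↔ ∑ i, c i = S := by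
  unfold ce
  rw [Finset.mem_filter, Fintype.mem_piFinset]
  refine ⟨fun h => h.2, fun h => ⟨fun i => ?_, h⟩⟩
  rw [Finset.mem_range]
  have := Finset.single_le_sum (f := c) (fun i _ => Nat.zero_le _) (Finset.mem_univ i)
  omega

lemma ce_subset_cs (d S : ℕ) : ce d S ⊆ cs d S := by
  intro c hc
  rw [mem_ce] at hc
  rw [mem_cs]
  exact hc.le

lemma sum_cs_succ {d S : ℕ} (f : (Fin (d + 1) → ℕ) → ℝ) :
    ∑ c ∈ cs (d + 1) S, f c = ∑ a ∈ range (S + 1), ∑ c ∈ cs d (S - a), f (Fin.cons a c) := by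
  rw [Finset.sum_sigma']
  refine Finset.sum_nbij' (fun c => ⟨c 0, Fin.tail c⟩) (fun p => Fin.cons p.1 p.2) ?_ ?_ ?_ ?_ ?_
  · intro c hc
    rw [mem_cs, Fin.sum_univ_succ] at hc
    rw [Finset.mem_sigma, Finset.mem_range, mem_cs]
    simp only [Fin.tail]
    omega
  · rintro ⟨a, c⟩ hc
    rw [Finset.mem_sigma, Finset.mem_range, mem_cs] at hc
    rw [mem_cs, Fin.sum_univ_succ]
    simp only [Fin.cons_zero, Fin.cons_succ] at hc ⊢
    omega
  · intro c _
    exact Fin.cons_self_tail c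
  · rintro ⟨a, c⟩ _
    simp
  · intro c _
    simp only [Fin.cons_self_tail]

lemma sum_ce_succ {d S : ℕ} (f : (Fin (d + 1) → ℕ) → ℝ) :
    ∑ c ∈ ce (d + 1) S, f c = ∑ a ∈ range (S + 1), ∑ c ∈ ce d (S - a), f (Fin.cons a c) := by
  rw [Finset.sum_sigma']
  refine Finset.sum_nbij' (fun c => ⟨c 0, Fin.tail c⟩) (fun p => Fin.cons p.1 p.2) ?_ ?_ ?_ ?_ ?_
  · intro c hc
    rw [mem_ce, Fin.sum_univ_succ] at hc
    rw [Finset.mem_sigma, Finset.mem_range, mem_ce]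
    simp only [Fin.tail]
    omega
  · rintro ⟨a, c⟩ hc
    rw [Finset.mem_sigma, Finset.mem_range, mem_ce] at hc
    rw [mem_ce, Fin.sum_univ_succ]
    simp only [Fin.cons_zero, Fin.cons_succ] at hc ⊢
    omega
  · intro c _
    exact Fin.cons_self_tail c
  · rintro ⟨a, c⟩ _
    simp
  · intro c _
    simp only [Fin.cons_self_tail]

/-- The hyperbolic cross decomposition of a product. -/
lemma cross (L : ℕ) : ∀ (d : ℕ) (ψ Ψ θ : Fin d → ℕ → ℝ) (χ : Fin d → ℝ),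
    (∀ i, ∀ c ≤ L, 0 ≤ ψ i c) → (∀ i, ∀ c ≤ L, 0 ≤ Ψ i c) →
    (∀ i, ∑ c ∈ range (L + 1), ψ i c = χ i) → (∀ i, χ i ≤ 1) →
    (∀ i, ∀ S ≤ L, ∑ c ∈ Ico (S + 1) (L + 1), ψ i c ≤ Ψ i S) →
    (∀ i, ∀ c ≤ L, ψ i c + Ψ i c ≤ θ i c) → (∀ i, 1 ≤ θ i 0) →
    ∀ S ≤ L, 0 ≤ ∏ i, χ i - ∑ c ∈ cs d S, ∏ i, ψ i (c i) ∧
      ∏ i, χ i - ∑ c ∈ cs d S, ∏ i, ψ i (c i) ≤ ∑ c ∈ ce d S, ∏ i, θ i (c i) := by
  intro d
  induction d with
  | zero =>
    intro ψ Ψ θ χ _ _ _ _ _ _ _ S _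
    have h1 : ∑ c ∈ cs 0 S, ∏ i, ψ i (c i) = 1 := by
      have : cs 0 S = {Fin.elim0} := by
        ext c
        rw [mem_cs]
        simp [Subsingleton.elim c Fin.elim0]
      rw [this]
      simp
    rw [h1]
    simp only [Finset.univ_eq_empty, Finset.prod_empty, sub_self, le_refl, true_and]
    positivity
  | succ d ih =>
    intro ψ Ψ θ χ hψ hΨ0 hχ hχ1 hΨ hθ hθ0 S hS
    have hχ0 : ∀ i, 0 ≤ χ i := fun i => by
      rw [← hχ i]
      exact Finset.sum_nonneg fun c hc => hψ i c (by rw [Finset.mem_range] at hc; omega)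
    have ih' := ih (fun i => ψ i.succ) (fun i => Ψ i.succ) (fun i => θ i.succ)
      (fun i => χ i.succ) (fun i => hψ i.succ) (fun i => hΨ0 i.succ) (fun i => hχ i.succ)
      (fun i => hχ1 i.succ) (fun i => hΨ i.succ) (fun i => hθ i.succ) (fun i => hθ0 i.succ)
    set P := ∏ i : Fin d, χ i.succ with hP
    have hP0 : 0 ≤ P := Finset.prod_nonneg fun i _ => hχ0 _
    have hP1 : P ≤ 1 := Finset.prod_le_one (fun i _ => hχ0 _) fun i _ => hχ1 _
    rw [sum_cs_succ, sum_ce_succ, Fin.prod_univ_succ]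
    simp only [Fin.prod_univ_succ, Fin.cons_zero, Fin.cons_succ]
    rw [← hP]
    have hsplit : χ 0 = ∑ a ∈ range (S + 1), ψ 0 a + ∑ a ∈ Ico (S + 1) (L + 1), ψ 0 a := by
      rw [← hχ 0, Finset.range_eq_Ico, Finset.range_eq_Ico,
        Finset.sum_Ico_consecutive _ (by omega) (by omega)]
    have htail0 : 0 ≤ ∑ a ∈ Ico (S + 1) (L + 1), ψ 0 a :=
      Finset.sum_nonneg fun c hc => hψ 0 c (by rw [Finset.mem_Ico] at hc; omega)
    have hkey : χ 0 * P - ∑ a ∈ range (S + 1), ∑ c ∈ cs d (S - a), ψ 0 a * ∏ i, ψ i.succ (c i) =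
        ∑ a ∈ range (S + 1), ψ 0 a * (P - ∑ c ∈ cs d (S - a), ∏ i, ψ i.succ (c i)) +
          (∑ a ∈ Ico (S + 1) (L + 1), ψ 0 a) * P := by
      rw [hsplit, add_mul, Finset.sum_mul]
      simp only [mul_sub, Finset.sum_sub_distrib, ← Finset.mul_sum]
      ring
    rw [hkey]
    constructor
    · refine add_nonneg (Finset.sum_nonneg fun a ha => mul_nonneg (hψ 0 a ?_) ?_)
        (mul_nonneg htail0 hP0)
      · rw [Finset.mem_range] at ha; omega
      · exact (ih' (S - a) (by omega)).1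
    · have hθnn : ∀ i, ∀ c ≤ L, 0 ≤ θ i c := fun i c hc =>
        le_trans (add_nonneg (hψ i c hc) (hΨ0 i c hc)) (hθ i c hc)
      have hX0 : ∀ a ∈ range (S + 1), 0 ≤ ∑ c ∈ ce d (S - a), ∏ i, θ i.succ (c i) := by
        intro a _
        refine Finset.sum_nonneg fun c hc => Finset.prod_nonneg fun i _ => hθnn _ _ ?_
        rw [mem_ce] at hc
        have := Finset.single_le_sum (f := c) (fun i _ => Nat.zero_le _) (Finset.mem_univ i)
        omega
      have h1 : ∑ a ∈ range (S + 1), ψ 0 a * (P - ∑ c ∈ cs d (S - a), ∏ i, ψ i.succ (c i)) ≤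
          ∑ a ∈ range (S + 1), ψ 0 a * ∑ c ∈ ce d (S - a), ∏ i, θ i.succ (c i) := by
        refine Finset.sum_le_sum fun a ha => mul_le_mul_of_nonneg_left ?_ (hψ 0 a ?_)
        · exact (ih' (S - a) (by omega)).2
        · rw [Finset.mem_range] at ha; omega
      have h2 : (∑ a ∈ Ico (S + 1) (L + 1), ψ 0 a) * P ≤ Ψ 0 S := by
        calc (∑ a ∈ Ico (S + 1) (L + 1), ψ 0 a) * P ≤ (∑ a ∈ Ico (S + 1) (L + 1), ψ 0 a) * 1 := by
              gcongr
          _ ≤ Ψ 0 S := by rw [mul_one]; exact hΨ 0 S hS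
      have h3 : Ψ 0 S ≤ ∑ a ∈ range (S + 1),
          (θ 0 a - ψ 0 a) * ∑ c ∈ ce d (S - a), ∏ i, θ i.succ (c i) := by
        have h4 : (θ 0 S - ψ 0 S) * ∑ c ∈ ce d (S - S), ∏ i, θ i.succ (c i) ≤
            ∑ a ∈ range (S + 1), (θ 0 a - ψ 0 a) * ∑ c ∈ ce d (S - a), ∏ i, θ i.succ (c i) := by
          refine Finset.single_le_sum (f := fun a => (θ 0 a - ψ 0 a) *
            ∑ c ∈ ce d (S - a), ∏ i, θ i.succ (c i)) (fun a ha => mul_nonneg ?_ (hX0 a ha))
            (Finset.self_mem_range_succ S)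
          rw [Finset.mem_range] at ha
          have := hθ 0 a (by omega)
          have := hΨ0 0 a (by omega)
          linarith
        refine le_trans ?_ h4
        have h5 : 1 ≤ ∑ c ∈ ce d (S - S), ∏ i, θ i.succ (c i) := by
          have h6 : (0 : Fin d → ℕ) ∈ ce d (S - S) := by rw [mem_ce]; simp
          refine le_trans ?_ (Finset.single_le_sum (f := fun c : Fin d → ℕ => ∏ i, θ i.succ (c i))
            (fun c hc => ?_) h6)
          · calc (1 : ℝ) = ∏ i : Fin d, (1 : ℝ) := by simp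
              _ ≤ _ := Finset.prod_le_prod (fun _ _ => zero_le_one) fun i _ => hθ0 _
          · refine Finset.prod_nonneg fun i _ => hθnn _ _ ?_
            rw [mem_ce] at hc
            have := Finset.single_le_sum (f := c) (fun i _ => Nat.zero_le _) (Finset.mem_univ i)
            omega
        have h7 := hθ 0 S hS
        have h8 := hΨ0 0 S hS
        nlinarith
      have h9 : ∑ a ∈ range (S + 1), ∑ c ∈ ce d (S - a), θ 0 a * ∏ i, θ i.succ (c i) =
          ∑ a ∈ range (S + 1), ψ 0 a * ∑ c ∈ ce d (S - a), ∏ i, θ i.succ (c i) +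
          ∑ a ∈ range (S + 1), (θ 0 a - ψ 0 a) * ∑ c ∈ ce d (S - a), ∏ i, θ i.succ (c i) := by
        rw [← Finset.sum_add_distrib]
        refine Finset.sum_congr rfl fun a _ => ?_
        rw [← Finset.mul_sum]
        ring
      rw [h9]
      linarith

variable {N : ℕ} [NeZero N]

/-- The dual sum attached to a shape `c`. -/
noncomputable def dualSum {d : ℕ} (H : Fin d → ZMod N) (c : Fin d → ℕ) : ℝ :=
  N * (∏ i, (1 / 2 ^ c i : ℝ)) *
    ∑ m : Fin d → ZMod N with (∑ i, m i * H i = 0 ∧ m ≠ 0), ∏ i, V (c i) (m i)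

lemma dualSum_nonneg {d : ℕ} (H : Fin d → ZMod N) (c : Fin d → ℕ) : 0 ≤ dualSum H c := by
  unfold dualSum
  refine mul_nonneg (by positivity) (Finset.sum_nonneg fun m _ =>
    Finset.prod_nonneg fun i _ => V_nonneg _ _)

lemma bump_count {d : ℕ} (H : Fin d → ZMod N) (c : Fin d → ℕ) (K : ℝ) (hK : 0 ≤ K)
    (f : Fin d → ZMod N → ℝ) (hf : ∀ i, IsBump (c i) K (f i)) :
    |(∑ k : ZMod N, ∏ i, f i (k * H i)) - N * ((N : ℝ)⁻¹) ^ d * ∏ i, ∑ x, f i x| ≤
      K ^ d * dualSum H c := by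
  have hN : (N : ℝ) ≠ 0 := Nat.cast_ne_zero.mpr (NeZero.ne N)
  refine (poisson_ineq f H).trans ?_
  have h1 : ∀ m : Fin d → ZMod N, ∏ i, ‖FT (f i) (m i)‖ ≤
      K ^ d * N ^ d * (∏ i, (1 / 2 ^ c i : ℝ)) * ∏ i, V (c i) (m i) := by
    intro m
    refine (Finset.prod_le_prod (fun i _ => norm_nonneg _) fun i _ => (hf i).ft (m i)).trans ?_
    rw [Finset.prod_mul_distrib, Finset.prod_mul_distrib, Finset.prod_const, Finset.card_univ,
      Fintype.card_fin]
    apply le_of_eq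
    congr 1
    rw [mul_assoc]
    congr 1
    simp only [div_eq_mul_inv, one_mul]
    rw [Finset.prod_mul_distrib, Finset.prod_const, Finset.card_univ, Fintype.card_fin]
  calc N * ((N : ℝ)⁻¹) ^ d *
        ∑ m : Fin d → ZMod N with (∑ i, m i * H i = 0 ∧ m ≠ 0), ∏ i, ‖FT (f i) (m i)‖
      ≤ N * ((N : ℝ)⁻¹) ^ d *
        ∑ m : Fin d → ZMod N with (∑ i, m i * H i = 0 ∧ m ≠ 0),
          (K ^ d * N ^ d * (∏ i, (1 / 2 ^ c i : ℝ)) * ∏ i, V (c i) (m i)) := by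
        gcongr with m _
        exact h1 m
    _ = K ^ d * dualSum H c := by
        unfold dualSum
        rw [← Finset.mul_sum, inv_pow]
        field_simp

lemma mass_le {d : ℕ} (c : Fin d → ℕ) (K : ℝ) (hK : 0 ≤ K)
    (f : Fin d → ZMod N → ℝ) (hf : ∀ i, IsBump (c i) K (f i)) :
    N * ((N : ℝ)⁻¹) ^ d * ∏ i, ∑ x, f i x ≤ K ^ d * (N * ∏ i, (1 / 2 ^ c i : ℝ)) := by
  have hN : (N : ℝ) ≠ 0 := Nat.cast_ne_zero.mpr (NeZero.ne N)
  have h1 : ∀ i, ∑ x, f i x ≤ K * (N / 2 ^ c i) := by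
    intro i
    have h2 := (hf i).ft 0
    rw [FT_zero, V_zero, mul_one, Complex.norm_real, Real.norm_eq_abs] at h2
    exact (le_abs_self _).trans h2
  have h3 : ∏ i, ∑ x, f i x ≤ K ^ d * N ^ d * ∏ i, (1 / 2 ^ c i : ℝ) := by
    refine (Finset.prod_le_prod (fun i _ => Finset.sum_nonneg fun x _ => (hf i).nonneg x)
      fun i _ => h1 i).trans ?_
    rw [Finset.prod_mul_distrib, Finset.prod_const, Finset.card_univ, Fintype.card_fin]
    apply le_of_eq
    simp only [div_eq_mul_inv, one_mul]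
    rw [Finset.prod_mul_distrib, Finset.prod_const, Finset.card_univ, Fintype.card_fin]
    ring
  calc N * ((N : ℝ)⁻¹) ^ d * ∏ i, ∑ x, f i x
      ≤ N * ((N : ℝ)⁻¹) ^ d * (K ^ d * N ^ d * ∏ i, (1 / 2 ^ c i : ℝ)) := by gcongr
    _ = _ := by rw [inv_pow]; field_simp

lemma sum_arc (u : ZMod N) (ℓ : ℕ) : ∑ x, arc u ℓ x = ℓ := by
  unfold arc
  rw [Finset.sum_comm]
  simp

/-- The error term of the lattice point count. -/
noncomputable def latErr {d : ℕ} (H : Fin d → ZMod N) : ℝ :=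
  2 * 7 ^ d * (∑ c ∈ cs d (Nat.log 2 N), dualSum H c + #(ce d (Nat.log 2 N)))

/-- Counting points of the cyclic group generated by `H` in a product of arcs. -/
lemma arcs_count {d : ℕ} (H : Fin d → ZMod N) (u : Fin d → ZMod N) (ℓ : Fin d → ℕ)
    (hℓ : ∀ i, ℓ i ≤ N) :
    |(∑ k : ZMod N, ∏ i, arc (u i) (ℓ i) (k * H i)) - N * ((N : ℝ)⁻¹) ^ d * ∏ i, (ℓ i : ℝ)| ≤
      latErr H := by
  set L := Nat.log 2 N with hL
  have hNpos : (0 : ℝ) < N := Nat.cast_pos.mpr (NeZero.pos N)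
  have hN2 : (N : ℝ) < 2 ^ L * 2 := by
    have := Nat.lt_pow_succ_log_self (b := 2) (by norm_num) N
    rw [← hL, pow_succ] at this
    exact_mod_cast this
  choose ψ Ψ hψb hΨb hsum htail using fun i => exists_bumps (u i) (ℓ i) (hℓ i)
  rw [← hL] at hψb hΨb hsum htail
  let θ : Fin d → ℕ → ZMod N → ℝ := fun i c x =>
    ψ i c x + Ψ i c x + (if c = 0 then 1 else 0)
  have hθb : ∀ i, ∀ c ≤ L, IsBump c 7 (θ i c) := by
    intro i c hc
    by_cases h0 : c = 0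
    · subst h0
      have e := ((hψb i 0 hc).add (hΨb i 0 hc)).add (isBump_one (N := N))
      have e2 : (fun x => ψ i 0 x + Ψ i 0 x + 1) = θ i 0 := by
        funext x
        simp [θ]
      rw [e2] at e
      exact e.mono (by norm_num)
    · have e := ((hψb i c hc).add (hΨb i c hc))
      have e2 : (fun x => ψ i c x + Ψ i c x) = θ i c := by
        funext x
        simp [θ, h0]
      rw [e2] at e
      exact e.mono (by norm_num)
  have hcross : ∀ x : Fin d → ZMod N,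
      0 ≤ ∏ i, arc (u i) (ℓ i) (x i) - ∑ c ∈ cs d L, ∏ i, ψ i (c i) (x i) ∧
      ∏ i, arc (u i) (ℓ i) (x i) - ∑ c ∈ cs d L, ∏ i, ψ i (c i) (x i) ≤
        ∑ c ∈ ce d L, ∏ i, θ i (c i) (x i) := by
    intro x
    refine cross L d (fun i c => ψ i c (x i)) (fun i c => Ψ i c (x i)) (fun i c => θ i c (x i))
      (fun i => arc (u i) (ℓ i) (x i)) (fun i c hc => (hψb i c hc).nonneg _)
      (fun i c hc => (hΨb i c hc).nonneg _) (fun i => hsum i (x i))
      (fun i => arc_le_one _ _ (hℓ i) _) (fun i S hS => htail i S hS (x i)) ?_ ?_ L le_rfl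
    · intro i c _
      simp only [θ]
      split_ifs <;> linarith
    · intro i
      simp only [θ, if_true]
      have h1 := (hψb i 0 (Nat.zero_le _)).nonneg (x i)
      have h2 := (hΨb i 0 (Nat.zero_le _)).nonneg (x i)
      linarith
  set A : ℝ := N * ((N : ℝ)⁻¹) ^ d with hA
  have hA0 : 0 ≤ A := by positivity
  -- notation for the two functionals
  have hmain : ∀ f : Fin d → ZMod N → ℝ, ∏ i, ∑ x, f i x = ∑ x : Fin d → ZMod N, ∏ i, f i (x i) := by
    intro f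
    rw [Finset.prod_univ_sum, Fintype.piFinset_univ]
  have hprodarc : ∏ i, (ℓ i : ℝ) = ∑ x : Fin d → ZMod N, ∏ i, arc (u i) (ℓ i) (x i) := by
    rw [← hmain]
    exact Finset.prod_congr rfl fun i _ => (sum_arc _ _).symm
  have hcle : ∀ c ∈ cs d L, ∀ i, c i ≤ L := by
    intro c hc i
    rw [mem_cs] at hc
    have := Finset.single_le_sum (f := c) (fun i _ => Nat.zero_le _) (Finset.mem_univ i)
    omega
  -- coarse part
  have hcoarse : ∀ c ∈ cs d L, |(∑ k : ZMod N, ∏ i, ψ i (c i) (k * H i)) -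
      A * ∑ x : Fin d → ZMod N, ∏ i, ψ i (c i) (x i)| ≤ 2 ^ d * dualSum H c := by
    intro c hc
    have := bump_count H c 2 (by norm_num) (fun i => ψ i (c i)) fun i => hψb i _ (hcle c hc i)
    rwa [hmain] at this
  have hfine : ∀ c ∈ ce d L, (∑ k : ZMod N, ∏ i, θ i (c i) (k * H i)) ≤
      7 ^ d * dualSum H c + 2 * 7 ^ d ∧
      A * ∑ x : Fin d → ZMod N, ∏ i, θ i (c i) (x i) ≤ 2 * 7 ^ d := by
    intro c hc
    have hc' := ce_subset_cs d L hc
    have h1 := bump_count H c 7 (by norm_num) (fun i => θ i (c i)) fun i => hθb i _ (hcle c hc' i)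
    have h2 := mass_le c 7 (by norm_num) (fun i => θ i (c i)) fun i => hθb i _ (hcle c hc' i)
    rw [hmain] at h1 h2
    have h3 : (N : ℝ) * ∏ i, (1 / 2 ^ c i : ℝ) ≤ 2 := by
      rw [mem_ce] at hc
      have h4 : ∏ i, (1 / 2 ^ c i : ℝ) = 1 / 2 ^ L := by
        rw [← hc, ← Finset.prod_pow_eq_pow_sum, Finset.prod_div_distrib, Finset.prod_const_one]
      rw [h4, mul_one_div, div_le_iff₀ (by positivity)]
      linarith
    have h5 : A * ∑ x : Fin d → ZMod N, ∏ i, θ i (c i) (x i) ≤ 2 * 7 ^ d := by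
      refine h2.trans ?_
      rw [mul_comm (2 : ℝ)]
      exact mul_le_mul_of_nonneg_left h3 (by positivity)
    have h6 := (abs_le.mp h1).2
    constructor
    · linarith
    · exact h5
  rw [hprodarc]
  set R : (Fin d → ZMod N) → ℝ := fun x =>
    ∏ i, arc (u i) (ℓ i) (x i) - ∑ c ∈ cs d L, ∏ i, ψ i (c i) (x i) with hR
  have e1 : (∑ k : ZMod N, ∏ i, arc (u i) (ℓ i) (k * H i)) =
      ∑ c ∈ cs d L, (∑ k : ZMod N, ∏ i, ψ i (c i) (k * H i)) +
        ∑ k : ZMod N, R (fun i => k * H i) := by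
    rw [Finset.sum_comm, ← Finset.sum_add_distrib]
    refine Finset.sum_congr rfl fun k _ => ?_
    simp only [hR]
    ring
  have e2 : ∑ x : Fin d → ZMod N, ∏ i, arc (u i) (ℓ i) (x i) =
      ∑ c ∈ cs d L, (∑ x : Fin d → ZMod N, ∏ i, ψ i (c i) (x i)) +
        ∑ x : Fin d → ZMod N, R x := by
    rw [Finset.sum_comm, ← Finset.sum_add_distrib]
    refine Finset.sum_congr rfl fun k _ => ?_
    simp only [hR]
    ring
  have hR1 : 0 ≤ ∑ k : ZMod N, R (fun i => k * H i) :=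
    Finset.sum_nonneg fun k _ => (hcross _).1
  have hR2 : 0 ≤ A * ∑ x : Fin d → ZMod N, R x :=
    mul_nonneg hA0 (Finset.sum_nonneg fun x _ => (hcross x).1)
  have hR3 : ∑ k : ZMod N, R (fun i => k * H i) ≤
      ∑ c ∈ ce d L, (7 ^ d * dualSum H c + 2 * 7 ^ d) := by
    calc ∑ k : ZMod N, R (fun i => k * H i)
        ≤ ∑ k : ZMod N, ∑ c ∈ ce d L, ∏ i, θ i (c i) (k * H i) :=
          Finset.sum_le_sum fun k _ => (hcross _).2
      _ = ∑ c ∈ ce d L, ∑ k : ZMod N, ∏ i, θ i (c i) (k * H i) := Finset.sum_comm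
      _ ≤ _ := Finset.sum_le_sum fun c hc => (hfine c hc).1
  have hR4 : A * ∑ x : Fin d → ZMod N, R x ≤ ∑ c ∈ ce d L, (2 * 7 ^ d : ℝ) := by
    calc A * ∑ x : Fin d → ZMod N, R x
        ≤ A * ∑ x : Fin d → ZMod N, ∑ c ∈ ce d L, ∏ i, θ i (c i) (x i) := by
          gcongr with x _
          exact (hcross x).2
      _ = ∑ c ∈ ce d L, A * ∑ x : Fin d → ZMod N, ∏ i, θ i (c i) (x i) := by
          rw [Finset.sum_comm, Finset.mul_sum]
      _ ≤ _ := Finset.sum_le_sum fun c hc => (hfine c hc).2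
  have hD0 : ∀ c, 0 ≤ dualSum H c := dualSum_nonneg H
  have hE : ∑ c ∈ ce d L, dualSum H c ≤ ∑ c ∈ cs d L, dualSum H c :=
    Finset.sum_le_sum_of_subset_of_nonneg (ce_subset_cs d L) fun c _ _ => hD0 c
  have hDs : 0 ≤ ∑ c ∈ cs d L, dualSum H c := Finset.sum_nonneg fun c _ => hD0 c
  have hmainabs : |∑ c ∈ cs d L, ((∑ k : ZMod N, ∏ i, ψ i (c i) (k * H i)) -
      A * ∑ x : Fin d → ZMod N, ∏ i, ψ i (c i) (x i))| ≤
      2 ^ d * ∑ c ∈ cs d L, dualSum H c := by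
    refine (Finset.abs_sum_le_sum_abs _ _).trans ?_
    rw [Finset.mul_sum]
    exact Finset.sum_le_sum fun c hc => hcoarse c hc
  have h27 : (2 : ℝ) ^ d ≤ 7 ^ d := by gcongr; norm_num
  have h70 : (0 : ℝ) < 7 ^ d := by positivity
  rw [Finset.sum_const, nsmul_eq_mul] at hR4
  rw [Finset.sum_add_distrib, Finset.sum_const, nsmul_eq_mul, ← Finset.mul_sum] at hR3
  have e3 : (∑ k : ZMod N, ∏ i, arc (u i) (ℓ i) (k * H i)) -
      A * ∑ x : Fin d → ZMod N, ∏ i, arc (u i) (ℓ i) (x i) =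
      ∑ c ∈ cs d L, ((∑ k : ZMod N, ∏ i, ψ i (c i) (k * H i)) -
      A * ∑ x : Fin d → ZMod N, ∏ i, ψ i (c i) (x i)) +
      (∑ k : ZMod N, R (fun i => k * H i) - A * ∑ x : Fin d → ZMod N, R x) := by
    have e4 : ∑ c ∈ cs d L, ((∑ k : ZMod N, ∏ i, ψ i (c i) (k * H i)) -
        A * ∑ x : Fin d → ZMod N, ∏ i, ψ i (c i) (x i)) =
        (∑ c ∈ cs d L, (∑ k : ZMod N, ∏ i, ψ i (c i) (k * H i))) -
        A * ∑ c ∈ cs d L, (∑ x : Fin d → ZMod N, ∏ i, ψ i (c i) (x i)) := by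
      rw [Finset.sum_sub_distrib, ← Finset.mul_sum]
    rw [e1, e2, e4]
    ring
  rw [e3]
  unfold latErr
  rw [← hL]
  have hm := abs_le.mp hmainabs
  have h28 : (2 : ℝ) ^ d * ∑ c ∈ cs d L, dualSum H c ≤ 7 ^ d * ∑ c ∈ cs d L, dualSum H c := by
    gcongr
  have h29 : (7 : ℝ) ^ d * ∑ c ∈ ce d L, dualSum H c ≤ 7 ^ d * ∑ c ∈ cs d L, dualSum H c := by
    gcongr
  rw [abs_le]
  constructor
  · nlinarith [hm.1, hm.2]
  · nlinarith [hm.1, hm.2]

end Pool.Agent.Lib.MP_dc06b6_nt
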