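import Pool.Agent.Lib.MP_dc06b6_nt.Average

/-!
# Existence of a good generating vector
-/

set_option autoImplicit false
set_option linter.unusedSectionVars false

namespace Pool.Agent.Lib.MP_dc06b6_nt

open Finset

variable {N : ℕ} [Fact N.Prime] {t : ℕ}

open Classical in
lemma exists_good {ι : Type*} (I : Finset ι) (hI : I.Nonempty) (β : ι → ZMod N)
    (hβ : ∀ j ∈ I, β j ≠ 0) (κ M : ℕ)
    (hκ : 2 ^ (t + 1) * #I * Lam N ^ (t + 1) ≤ 2 ^ κ)
    (hM : Lam N ^ (t + 1) * 2 ^ κ ≤ 2 ^ M) :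
    ∃ g : Fin t → ZMod N, (∀ i, g i ≠ 0) ∧
      ∑ j ∈ I, ∑ c ∈ cs (t + 1) (Nat.log 2 N), dualSum (gen (β j) g) c ≤
        2 ^ (t + 1) * #I * ((Nat.log 2 N + 1) ^ t * (6 ^ (t + 1) * M + 2)) := by
  set L := Nat.log 2 N with hL
  have hprime : N.Prime := Fact.out
  have hNpos : (0 : ℝ) < N := Nat.cast_pos.mpr hprime.pos
  have hLN : (2 : ℝ) ^ L ≤ N := by exact_mod_cast Nat.pow_log_le_self 2 hprime.ne_zero
  have hΛ : 0 < Lam N := Lam_pos N
  set Q : ℝ := 2 ^ L / 2 ^ κ with hQdef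
  have hQ : 0 < Q := by positivity
  have hIc : (0 : ℝ) < #I := by exact_mod_cast hI.card_pos
  set X : ℝ := (L + 1) ^ t * (6 ^ (t + 1) * M + 2) with hX
  have hX0 : 0 < X := by positivity
  -- the set of admissible vectors
  set G : Finset (Fin t → ZMod N) := Fintype.piFinset fun _ => Finset.univ.erase 0 with hG
  have hGcard : (N : ℝ) ^ t / 2 ^ t ≤ #G := by
    rw [hG, Fintype.card_piFinset_const, Finset.card_erase_of_mem (Finset.mem_univ _),
      Finset.card_univ, ZMod.card, ← div_pow]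
    push_cast
    have h2 : 2 ≤ N := hprime.two_le
    have h3 : (N : ℝ) / 2 ≤ ((N - 1 : ℕ) : ℝ) := by
      rw [Nat.cast_sub (by omega)]
      have : (2 : ℝ) ≤ N := by exact_mod_cast h2
      push_cast
      linarith
    exact pow_le_pow_left₀ (by positivity) h3 t
  set W : Finset (Fin t → ZMod N) := I.biUnion fun j => Finset.univ.filter fun g => Bad Q (β j) g
    with hW
  have hWcard : (#W : ℝ) ≤ N ^ t / 2 ^ (t + 1) := by
    have h1 : (#W : ℝ) ≤ ∑ j ∈ I, (#{g : Fin t → ZMod N | Bad Q (β j) g} : ℝ) := by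
      exact_mod_cast Finset.card_biUnion_le
    have h2 : ∀ j ∈ I, (#{g : Fin t → ZMod N | Bad Q (β j) g} : ℝ) ≤
        N ^ t * Lam N ^ (t + 1) / 2 ^ κ := by
      intro j hj
      have h3 := card_bad (t := t) Q hQ.le (β j) (hβ j hj)
      rw [← le_div_iff₀ hNpos] at h3
      refine h3.trans ?_
      rw [div_le_div_iff₀ hNpos (by positivity), hQdef]
      have h4 : (2 : ℝ) ^ L / 2 ^ κ * 2 ^ κ = 2 ^ L := by field_simp
      calc (N : ℝ) ^ t * (2 ^ L / 2 ^ κ * Lam N ^ (t + 1)) * 2 ^ κ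
          = (N : ℝ) ^ t * Lam N ^ (t + 1) * (2 ^ L / 2 ^ κ * 2 ^ κ) := by ring
        _ = (N : ℝ) ^ t * Lam N ^ (t + 1) * 2 ^ L := by rw [h4]
        _ ≤ (N : ℝ) ^ t * Lam N ^ (t + 1) * N := by gcongr
    refine (h1.trans (Finset.sum_le_sum h2)).trans ?_
    rw [Finset.sum_const, nsmul_eq_mul, ← mul_div_assoc, div_le_div_iff₀ (by positivity)
      (by positivity)]
    calc (#I : ℝ) * ((N : ℝ) ^ t * Lam N ^ (t + 1)) * 2 ^ (t + 1)
        = (N : ℝ) ^ t * (2 ^ (t + 1) * #I * Lam N ^ (t + 1)) := by ring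
      _ ≤ (N : ℝ) ^ t * 2 ^ κ := by gcongr
  have hgood : (N : ℝ) ^ t / 2 ^ (t + 1) ≤ #(G \ W) := by
    have h1 : (#G : ℝ) ≤ #(G \ W) + #W := by
      exact_mod_cast (Nat.sub_le_iff_le_add.mp (Finset.le_card_sdiff W G))
    have h2 : (N : ℝ) ^ t / 2 ^ t = N ^ t / 2 ^ (t + 1) + N ^ t / 2 ^ (t + 1) := by
      rw [pow_succ]
      field_simp
      norm_num
    linarith
  have hne : (G \ W).Nonempty := by
    rw [← Finset.card_pos]
    have : (0 : ℝ) < #(G \ W) := lt_of_lt_of_le (by positivity) hgood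
    exact_mod_cast this
  have hsum : ∑ g ∈ G \ W, ∑ j ∈ I, ∑ c ∈ cs (t + 1) L, dualSum (gen (β j) g) c ≤
      #I * (N ^ t * X) := by
    rw [Finset.sum_comm]
    have h1 : ∀ j ∈ I, ∑ g ∈ G \ W, ∑ c ∈ cs (t + 1) L, dualSum (gen (β j) g) c ≤
        N ^ t * X := by
      intro j hj
      rw [Finset.sum_comm]
      have h2 : ∀ c ∈ cs (t + 1) L, ∑ g ∈ G \ W, dualSum (gen (β j) g) c ≤
          N ^ t * min (6 ^ (t + 1)) (2 ^ (∑ i, c i) * Lam N ^ (t + 1) / Q) := by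
        intro c _
        refine le_trans ?_ (sum_dualSum_le Q hQ (β j) (hβ j hj) c)
        refine Finset.sum_le_sum_of_subset_of_nonneg ?_ fun g _ _ => dualSum_nonneg _ _
        intro g hg
        rw [Finset.mem_sdiff] at hg
        rw [Finset.mem_filter]
        refine ⟨Finset.mem_univ _, fun hb => hg.2 ?_⟩
        rw [hW, Finset.mem_biUnion]
        exact ⟨j, hj, by simp [hb]⟩
      refine (Finset.sum_le_sum h2).trans ?_
      rw [← Finset.mul_sum]
      refine mul_le_mul_of_nonneg_left ?_ (by positivity)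
      refine sum_shapes_le L M Q (Lam N) ?_
      rw [hQdef, div_le_div_iff₀ (by positivity) (by positivity)]
      calc Lam N ^ (t + 1) * 2 ^ L = Lam N ^ (t + 1) * 2 ^ κ * (2 ^ L / 2 ^ κ) := by
            field_simp
        _ ≤ 2 ^ M * (2 ^ L / 2 ^ κ) := by gcongr
    refine (Finset.sum_le_sum h1).trans ?_
    rw [Finset.sum_const, nsmul_eq_mul]
  have hex : ∃ g ∈ G \ W, ∑ j ∈ I, ∑ c ∈ cs (t + 1) L, dualSum (gen (β j) g) c ≤
      2 ^ (t + 1) * #I * X := by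
    apply Finset.exists_le_of_sum_le hne
    rw [Finset.sum_const, nsmul_eq_mul]
    refine hsum.trans ?_
    calc (#I : ℝ) * (N ^ t * X) = (N ^ t / 2 ^ (t + 1)) * (2 ^ (t + 1) * #I * X) := by
          field_simp
      _ ≤ #(G \ W) * (2 ^ (t + 1) * #I * X) := by gcongr
  obtain ⟨g, hg, hgs⟩ := hex
  refine ⟨g, fun i => ?_, hgs⟩
  rw [Finset.mem_sdiff, hG, Fintype.mem_piFinset] at hg
  exact (Finset.mem_erase.mp (hg.1 i)).1

end Pool.Agent.Lib.MP_dc06b6_nt
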