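import Mathlib

/-!
# Finite Fourier analysis on `ZMod N` used for the hybrid Hammersley problem
-/

set_option autoImplicit false

namespace Pool.Agent.Lib.MP_dc06b6_nt

open Finset

variable {N : ℕ} [NeZero N]

/-- Fourier transform of a real function on `ZMod N`. -/
noncomputable def FT (f : ZMod N → ℝ) (m : ZMod N) : ℂ :=
  ∑ x : ZMod N, (f x : ℂ) * ZMod.stdAddChar (m * x)

lemma char_sum (t : ZMod N) :
    ∑ i : ZMod N, (ZMod.stdAddChar (t * i) : ℂ) = if t = 0 then (N : ℂ) else 0 := by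
  have h := AddChar.sum_mulShift (R' := ℂ) t (ZMod.isPrimitive_stdAddChar N)
  simp only [ZMod.card, Nat.cast_ite, Nat.cast_zero] at h
  rw [← h]
  exact Finset.sum_congr rfl fun i _ => by rw [mul_comm]

lemma FT_zero (f : ZMod N → ℝ) : FT f 0 = ((∑ x, f x : ℝ) : ℂ) := by
  simp [FT]

lemma FT_inv (f : ZMod N → ℝ) (x : ZMod N) :
    (f x : ℂ) = (N : ℂ)⁻¹ * ∑ m, FT f m * ZMod.stdAddChar (-(m * x)) := by
  have hN : (N : ℂ) ≠ 0 := Nat.cast_ne_zero.mpr (NeZero.ne N)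
  have h1 : ∑ m, FT f m * ZMod.stdAddChar (-(m * x)) =
      ∑ y : ZMod N, (f y : ℂ) * ∑ m : ZMod N, ZMod.stdAddChar ((y - x) * m) := by
    simp only [FT, Finset.sum_mul, Finset.mul_sum]
    rw [Finset.sum_comm]
    refine Finset.sum_congr rfl fun y _ => Finset.sum_congr rfl fun m _ => ?_
    rw [mul_assoc, ← AddChar.map_add_eq_mul]
    congr 2
    ring
  rw [h1]
  simp only [char_sum]
  rw [Finset.sum_eq_single x]
  · simp only [sub_self, if_true]
    field_simp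
  · intro y _ hy
    rw [if_neg (sub_ne_zero.mpr hy), mul_zero]
  · intro h
    exact absurd (Finset.mem_univ x) h

lemma char_map_sum {ι : Type*} (s : Finset ι) (f : ι → ZMod N) :
    (ZMod.stdAddChar (∑ i ∈ s, f i) : ℂ) = ∏ i ∈ s, ZMod.stdAddChar (f i) := by
  classical
  induction s using Finset.induction_on with
  | empty => simp
  | insert a s ha ih => rw [Finset.sum_insert ha, Finset.prod_insert ha, AddChar.map_add_eq_mul, ih]

/-- Poisson summation for the cyclic group generated by `H`. -/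
lemma poisson {d : ℕ} (f : Fin d → ZMod N → ℝ) (H : Fin d → ZMod N) :
    (∑ k : ZMod N, ∏ i, (f i (k * H i) : ℂ)) =
      (N : ℂ) * ((N : ℂ)⁻¹) ^ d *
        ∑ m : Fin d → ZMod N with ∑ i, m i * H i = 0, ∏ i, FT (f i) (m i) := by
  have h1 : ∀ k : ZMod N, ∏ i, (f i (k * H i) : ℂ) =
      ((N : ℂ)⁻¹) ^ d * ∑ m : Fin d → ZMod N, (∏ i, FT (f i) (m i)) *
        ZMod.stdAddChar ((-(∑ i, m i * H i)) * k) := by
    intro k
    have h2 : ∀ i, (f i (k * H i) : ℂ) =
        (N : ℂ)⁻¹ * ∑ m, FT (f i) m * ZMod.stdAddChar (-(m * (k * H i))) := fun i => FT_inv _ _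
    rw [Finset.prod_congr rfl fun i _ => h2 i, Finset.prod_mul_distrib, Finset.prod_const,
      Finset.card_univ, Fintype.card_fin]
    congr 1
    rw [Finset.prod_univ_sum, Fintype.piFinset_univ]
    refine Finset.sum_congr rfl fun m _ => ?_
    rw [Finset.prod_mul_distrib]
    congr 1
    rw [← char_map_sum]
    congr 1
    rw [Finset.sum_neg_distrib, neg_mul, Finset.sum_mul]
    congr 1
    exact Finset.sum_congr rfl fun i _ => by ring
  simp only [h1]
  rw [← Finset.mul_sum, Finset.sum_comm]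
  simp only [← Finset.mul_sum, char_sum, neg_eq_zero]
  rw [Finset.sum_filter]
  rw [mul_comm (N : ℂ), mul_assoc, Finset.mul_sum, Finset.mul_sum, Finset.mul_sum]
  refine Finset.sum_congr rfl fun m _ => ?_
  split_ifs <;> ring

/-- Number of points of the finite lattice generated by `H` weighted by a product function,
compared with its expected value. -/
lemma poisson_ineq {d : ℕ} (f : Fin d → ZMod N → ℝ) (H : Fin d → ZMod N) :
    |(∑ k : ZMod N, ∏ i, f i (k * H i)) - N * ((N : ℝ)⁻¹) ^ d * ∏ i, ∑ x, f i x| ≤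
      N * ((N : ℝ)⁻¹) ^ d *
        ∑ m : Fin d → ZMod N with (∑ i, m i * H i = 0 ∧ m ≠ 0), ∏ i, ‖FT (f i) (m i)‖ := by
  have h := poisson f H
  have hmem : (0 : Fin d → ZMod N) ∈
      (Finset.univ.filter fun m : Fin d → ZMod N => ∑ i, m i * H i = 0) := by simp
  rw [← Finset.add_sum_erase _ _ hmem, mul_add] at h
  have hz : (∏ i, FT (f i) ((0 : Fin d → ZMod N) i)) = ((∏ i, ∑ x, f i x : ℝ) : ℂ) := by
    simp only [Pi.zero_apply, FT_zero, Complex.ofReal_prod]
  rw [hz] at h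
  have h2 : (((∑ k : ZMod N, ∏ i, f i (k * H i)) -
      N * ((N : ℝ)⁻¹) ^ d * ∏ i, ∑ x, f i x : ℝ) : ℂ) =
      (N : ℂ) * ((N : ℂ)⁻¹) ^ d *
        ∑ m ∈ (Finset.univ.filter fun m : Fin d → ZMod N => ∑ i, m i * H i = 0).erase 0,
          ∏ i, FT (f i) (m i) := by
    push_cast
    push_cast at h
    rw [h]
    ring
  rw [← Real.norm_eq_abs, ← Complex.norm_real, h2, norm_mul, norm_mul, norm_pow, norm_inv,
    Complex.norm_natCast]
  gcongr
  refine (norm_sum_le _ _).trans ?_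
  refine (Finset.sum_le_sum fun m _ => (norm_prod _ _).le).trans ?_
  apply le_of_eq
  apply Finset.sum_congr _ fun _ _ => rfl
  ext m
  simp [and_comm]

/-- Geometric sums. -/
noncomputable def geo (w : ℕ) (m : ZMod N) : ℂ := ∑ a ∈ range w, ZMod.stdAddChar (m * (a : ZMod N))

lemma norm_char (m : ZMod N) : ‖(ZMod.stdAddChar m : ℂ)‖ = 1 := by
  exact AddChar.norm_apply _ _

lemma norm_geo_le (w : ℕ) (m : ZMod N) : ‖geo w m‖ ≤ w := by
  unfold geo
  refine (norm_sum_le _ _).trans ?_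
  simp

lemma norm_char_sub_one (m : ZMod N) :
    4 * |(m.valMinAbs : ℝ)| / N ≤ ‖(ZMod.stdAddChar m : ℂ) - 1‖ := by
  have hN : (0 : ℝ) < N := Nat.cast_pos.mpr (NeZero.pos N)
  have h1 : (ZMod.stdAddChar m : ℂ) =
      Complex.exp (Complex.I * ((2 * Real.pi * m.valMinAbs / N : ℝ) : ℂ)) := by
    conv_lhs => rw [← ZMod.coe_valMinAbs m]
    rw [ZMod.stdAddChar_coe]
    congr 1
    push_cast
    ring
  rw [h1, Complex.norm_exp_I_mul_ofReal_sub_one, Real.norm_eq_abs, abs_mul, abs_two]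
  have h2 : |(m.valMinAbs : ℝ)| ≤ N / 2 := by
    have := ZMod.natAbs_valMinAbs_le m
    have h3 : (m.valMinAbs.natAbs : ℝ) ≤ (N / 2 : ℕ) := by exact_mod_cast this
    have h4 : ((N / 2 : ℕ) : ℝ) ≤ N / 2 := Nat.cast_div_le
    rw [Nat.cast_natAbs, Int.cast_abs] at h3
    exact h3.trans h4
  have h5 : |2 * Real.pi * (m.valMinAbs : ℝ) / N / 2| = Real.pi * |(m.valMinAbs : ℝ)| / N := by
    rw [abs_div, abs_div, abs_mul, abs_mul, abs_two, abs_of_pos Real.pi_pos, abs_of_pos hN]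
    ring
  have h6 : |2 * Real.pi * (m.valMinAbs : ℝ) / N / 2| ≤ Real.pi / 2 := by
    rw [h5, div_le_iff₀ hN]
    have := mul_le_mul_of_nonneg_left h2 Real.pi_pos.le
    linarith
  have h7 := Real.mul_abs_le_abs_sin h6
  rw [h5] at h7
  have h8 : 2 / Real.pi * (Real.pi * |(m.valMinAbs : ℝ)| / N) = 2 * |(m.valMinAbs : ℝ)| / N := by
    field_simp
  rw [h8] at h7
  calc 4 * |(m.valMinAbs : ℝ)| / N = 2 * (2 * |(m.valMinAbs : ℝ)| / N) := by ring
    _ ≤ _ := by linarith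

lemma norm_geo_le' (w : ℕ) (m : ZMod N) (hm : m ≠ 0) :
    ‖geo w m‖ ≤ N / (2 * |(m.valMinAbs : ℝ)|) := by
  have hN : (0 : ℝ) < N := Nat.cast_pos.mpr (NeZero.pos N)
  have hv : 0 < |(m.valMinAbs : ℝ)| := by
    rw [abs_pos]
    exact_mod_cast (fun h => hm ((ZMod.valMinAbs_eq_zero m).mp h))
  have h1 : geo w m * (ZMod.stdAddChar m - 1) = ZMod.stdAddChar (m * (w : ZMod N)) - 1 := by
    have : geo w m = ∑ a ∈ range w, (ZMod.stdAddChar m : ℂ) ^ a := by
      unfold geo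
      refine Finset.sum_congr rfl fun a _ => ?_
      rw [← AddChar.map_nsmul_eq_pow, nsmul_eq_mul, mul_comm]
    rw [this, geom_sum_mul, ← AddChar.map_nsmul_eq_pow, nsmul_eq_mul, mul_comm m]
  have h2 : ‖geo w m‖ * ‖(ZMod.stdAddChar m : ℂ) - 1‖ ≤ 2 := by
    rw [← norm_mul, h1]
    calc _ ≤ ‖(ZMod.stdAddChar (m * (w : ZMod N)) : ℂ)‖ + ‖(1 : ℂ)‖ := norm_sub_le _ _
      _ = 2 := by rw [norm_char]; norm_num
  have h3 := norm_char_sub_one m
  have h4 : ‖geo w m‖ * (4 * |(m.valMinAbs : ℝ)| / N) ≤ 2 :=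
    (mul_le_mul_of_nonneg_left h3 (norm_nonneg _)).trans h2
  rw [le_div_iff₀ (by positivity)]
  rw [mul_div_assoc', div_le_iff₀ hN] at h4
  linarith

end Pool.Agent.Lib.MP_dc06b6_nt
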